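import Mathlib
import Pool.Agent.Y679.Cr.Dens
import Pool.Agent.Y679.Cr.Conv

/-!
# From the height to the conductor, for one of finitely many properties
-/

set_option autoImplicit false

namespace Pool.Agent.X293.CO

open Filter Finset Topology Pool.Agent.W307.RT Pool.Agent.Y679.Cr

open Classical in
/-- If for all large `H` one of finitely many properties holds for a positive proportion of the curves
of height at most `H`, then the same is true in the ordering by the conductor, uniformly in the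
factor. -/
theorem cond_list {ι : Type} (L : Finset ι) (Q : ι → ℤ × ℤ → Prop) {P : ℤ × ℤ → Prop} (hP : Good P)
    (h : ∃ δ : ℝ, 0 < δ ∧ ∃ H0 : ℕ, ∀ H : ℕ, H0 ≤ H → ∃ d ∈ L,
      δ * ((Cv 2 H).card : ℝ) ≤ (((Cv 2 H).filter (Q d)).card : ℝ)) :
    ∃ δ : ℝ, 0 < δ ∧ ∀ f : ℤ × ℤ → ℕ, Bdd f → ∀ᶠ Z : ℕ in atTop, ∃ d ∈ L,
      δ ≤ ((Gm P f Z ∩ {k | Q d k}).ncard : ℝ) / (Gm P f Z).ncard := by
  obtain ⟨δ0, hδ0, H0, h0⟩ := h
  have hne : L.Nonempty := by
    obtain ⟨d, hd, -⟩ := h0 H0 le_rfl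
    exact ⟨d, hd⟩
  have hLr : (0 : ℝ) < L.card := by exact_mod_cast hne.card_pos
  obtain ⟨δ1, hδ1, h1⟩ := pos hP (T := fun k => ∃ d ∈ L, Q d k) ⟨δ0, hδ0, H0, fun H hH => by
    obtain ⟨d, hd, hle⟩ := h0 H hH
    refine ⟨(Cv 2 H).filter (Q d), fun k hk => ?_, hle⟩
    have hk' := mem_filter.1 (mem_coe.1 hk)
    exact ⟨hk'.1, d, hd, hk'.2⟩⟩
  refine ⟨δ1 / L.card, by positivity, fun f hf => ?_⟩
  filter_upwards [h1 f hf] with Z hZ
  by_contra hcon
  push Not at hcon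
  set A : Finset (ℤ × ℤ) := (Gm_fin hP hf Z).toFinset with hA
  have hcoe : (A : Set (ℤ × ℤ)) = Gm P f Z := by rw [hA, Set.Finite.coe_toFinset]
  have hc1 : ∀ T : ℤ × ℤ → Prop, (Gm P f Z ∩ {k | T k}).ncard = (A.filter T).card := by
    intro T
    rw [← hcoe, ← Set.ncard_coe_finset]
    congr 1
    ext k
    simp
  have hc2 : (Gm P f Z).ncard = A.card := by rw [← hcoe, Set.ncard_coe_finset]
  have h3 : ((Gm P f Z ∩ {k | ∃ d ∈ L, Q d k}).ncard : ℝ) ≤
      ∑ d ∈ L, ((Gm P f Z ∩ {k | Q d k}).ncard : ℝ) := by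
    simp only [hc1]
    have h4 : A.filter (fun k => ∃ d ∈ L, Q d k) ⊆ L.biUnion (fun d => A.filter (Q d)) := by
      intro k hk
      rw [mem_filter] at hk
      obtain ⟨hk1, d, hd, hk2⟩ := hk
      rw [mem_biUnion]
      exact ⟨d, hd, mem_filter.2 ⟨hk1, hk2⟩⟩
    have h4' : (A.filter (fun k => ∃ d ∈ L, Q d k)).card ≤ ∑ d ∈ L, (A.filter (Q d)).card :=
      (card_le_card h4).trans card_biUnion_le
    have h5 : ((A.filter (fun k => ∃ d ∈ L, Q d k)).card : ℝ) ≤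
        ∑ d ∈ L, ((A.filter (Q d)).card : ℝ) := by
      exact_mod_cast h4'
    refine le_trans (le_of_eq ?_) h5
    congr 2
    ext k
    simp only [mem_filter]
  have h6 : ∑ d ∈ L, ((Gm P f Z ∩ {k | Q d k}).ncard : ℝ) / (Gm P f Z).ncard <
      ∑ _d ∈ L, δ1 / L.card := sum_lt_sum_of_nonempty hne hcon
  rw [sum_const, nsmul_eq_mul, mul_div_cancel₀ _ hLr.ne', ← sum_div] at h6
  have h7 := div_le_div_of_nonneg_right h3 (Nat.cast_nonneg (α := ℝ) (Gm P f Z).ncard)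
  exact absurd (hZ.trans h7) (not_le.2 h6)

end Pool.Agent.X293.CO
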