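import Mathlib

/-!
# Reduced pairs and quadratic twists
-/

set_option autoImplicit false

namespace Pool.Agent.X293.CO

open Finset

/-- there is no prime `p` with `p⁴ ∣ A` and `p⁶ ∣ B` -/
def Red (c : ℤ × ℤ) : Prop := ∀ p : ℕ, p.Prime → ¬ ((p : ℤ) ^ 4 ∣ c.1 ∧ (p : ℤ) ^ 6 ∣ c.2)

/-- `4 A³ + 27 B²` -/
def dsc (c : ℤ × ℤ) : ℤ := 4 * c.1 ^ 3 + 27 * c.2 ^ 2

lemma exists_red (n : ℕ) : ∀ c : ℤ × ℤ, dsc c ≠ 0 → (dsc c).natAbs ≤ n →
    ∃ (u : ℕ) (c' : ℤ × ℤ), 0 < u ∧ c.1 = (u : ℤ) ^ 4 * c'.1 ∧ c.2 = (u : ℤ) ^ 6 * c'.2 ∧ Red c' := by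
  induction n with
  | zero =>
    intro c h0 h1
    exact absurd (Int.natAbs_eq_zero.1 (Nat.le_zero.1 h1)) h0
  | succ n ih =>
    intro c h0 h1
    by_cases hr : Red c
    · exact ⟨1, c, one_pos, by simp, by simp, hr⟩
    · unfold Red at hr
      push Not at hr
      obtain ⟨p, hp, ⟨a, ha⟩, b, hb⟩ := hr
      have hp0 : (p : ℤ) ≠ 0 := by exact_mod_cast hp.ne_zero
      have e : dsc c = (p : ℤ) ^ 12 * dsc (a, b) := by
        unfold dsc
        rw [ha, hb]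
        ring
      have h2 : dsc (a, b) ≠ 0 := by
        intro h
        rw [h, mul_zero] at e
        exact h0 e
      have h3 : (dsc (a, b)).natAbs ≤ n := by
        have h4 : (dsc c).natAbs = p ^ 12 * (dsc (a, b)).natAbs := by
          rw [e, Int.natAbs_mul, Int.natAbs_pow, Int.natAbs_natCast]
        have h5 : 1 ≤ (dsc (a, b)).natAbs := Int.natAbs_pos.2 h2
        have h6 : 2 ≤ p ^ 12 := hp.two_le.trans (Nat.le_self_pow (by norm_num) p)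
        nlinarith
      obtain ⟨u, c', hu, e1, e2, hc'⟩ := ih (a, b) h2 h3
      refine ⟨p * u, c', Nat.mul_pos hp.pos hu, ?_, ?_, hc'⟩
      · rw [ha]
        have e1' : a = (u : ℤ) ^ 4 * c'.1 := e1
        rw [e1']
        push_cast
        ring
      · rw [hb]
        have e2' : b = (u : ℤ) ^ 6 * c'.2 := e2
        rw [e2']
        push_cast
        ring

lemma one_of {v w : ℕ} {c1 c2 : ℤ × ℤ} (h1 : Red c1) (hv : 0 < v) (hcop : v.Coprime w)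
    (e1 : (w : ℤ) ^ 4 * c1.1 = (v : ℤ) ^ 4 * c2.1) (e2 : (w : ℤ) ^ 6 * c1.2 = (v : ℤ) ^ 6 * c2.2) :
    v = 1 := by
  by_contra hne
  obtain ⟨p, hp, hpv⟩ := Nat.exists_prime_and_dvd hne
  have hpw : ¬ p ∣ w := fun h => hp.one_lt.ne' (Nat.dvd_one.1 (hcop ▸ Nat.dvd_gcd hpv h))
  have hc : IsCoprime (p : ℤ) (w : ℤ) := by
    rw [Nat.isCoprime_iff_coprime]
    exact (Nat.Prime.coprime_iff_not_dvd hp).2 hpw
  have hpv' : (p : ℤ) ∣ (v : ℤ) := by exact_mod_cast hpv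
  refine h1 p hp ⟨?_, ?_⟩
  · have h : (p : ℤ) ^ 4 ∣ (w : ℤ) ^ 4 * c1.1 := by
      rw [e1]
      exact (pow_dvd_pow_of_dvd hpv' 4).mul_right _
    exact (hc.pow).dvd_of_dvd_mul_left h
  · have h : (p : ℤ) ^ 6 ∣ (w : ℤ) ^ 6 * c1.2 := by
      rw [e2]
      exact (pow_dvd_pow_of_dvd hpv' 6).mul_right _
    exact (hc.pow).dvd_of_dvd_mul_left h

lemma red_unique {c1 c2 : ℤ × ℤ} (h1 : Red c1) (h2 : Red c2) {u1 u2 : ℕ} (hu1 : 0 < u1)
    (hu2 : 0 < u2) (e1 : (u2 : ℤ) ^ 4 * c1.1 = (u1 : ℤ) ^ 4 * c2.1)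
    (e2 : (u2 : ℤ) ^ 6 * c1.2 = (u1 : ℤ) ^ 6 * c2.2) : c1 = c2 := by
  obtain ⟨g, v1, v2, hg, hcop, f1, f2⟩ := Nat.exists_coprime' (m := u1) (n := u2)
    (Nat.gcd_pos_of_pos_left _ hu1)
  have hg0 : (g : ℤ) ≠ 0 := by exact_mod_cast hg.ne'
  have hv1 : 0 < v1 := by
    rcases Nat.eq_zero_or_pos v1 with h | h
    · rw [h, zero_mul] at f1
      omega
    · exact h
  have hv2 : 0 < v2 := by
    rcases Nat.eq_zero_or_pos v2 with h | h
    · rw [h, zero_mul] at f2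
      omega
    · exact h
  have e1' : (v2 : ℤ) ^ 4 * c1.1 = (v1 : ℤ) ^ 4 * c2.1 := by
    apply mul_left_cancel₀ (pow_ne_zero 4 hg0)
    rw [f1, f2] at e1
    push_cast at e1
    linear_combination e1
  have e2' : (v2 : ℤ) ^ 6 * c1.2 = (v1 : ℤ) ^ 6 * c2.2 := by
    apply mul_left_cancel₀ (pow_ne_zero 6 hg0)
    rw [f1, f2] at e2
    push_cast at e2
    linear_combination e2
  have k1 := one_of h1 hv1 hcop e1' e2'
  have k2 := one_of h2 hv2 hcop.symm e1'.symm e2'.symm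
  rw [k1, k2] at e1' e2'
  simp only [Nat.cast_one, one_pow, one_mul] at e1' e2'
  exact Prod.ext e1' e2'

/-- the reduced pair of the twist by `D` -/
noncomputable def rd (D : ℤ) (c : ℤ × ℤ) : ℤ × ℤ :=
  Classical.epsilon (fun c' : ℤ × ℤ => ∃ u : ℕ, 0 < u ∧ D ^ 2 * c.1 = (u : ℤ) ^ 4 * c'.1 ∧
    D ^ 3 * c.2 = (u : ℤ) ^ 6 * c'.2 ∧ Red c')

lemma rd_spec {D : ℤ} {c : ℤ × ℤ} (hD : D ≠ 0) (hc : dsc c ≠ 0) : ∃ u : ℕ, 0 < u ∧
    D ^ 2 * c.1 = (u : ℤ) ^ 4 * (rd D c).1 ∧ D ^ 3 * c.2 = (u : ℤ) ^ 6 * (rd D c).2 ∧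
    Red (rd D c) := by
  have e : dsc (D ^ 2 * c.1, D ^ 3 * c.2) = D ^ 6 * dsc c := by
    unfold dsc
    ring
  have h0 : dsc (D ^ 2 * c.1, D ^ 3 * c.2) ≠ 0 := by
    rw [e]
    exact mul_ne_zero (pow_ne_zero _ hD) hc
  obtain ⟨u, c', hu, e1, e2, hr⟩ := exists_red _ _ h0 le_rfl
  exact Classical.epsilon_spec (p := fun c' : ℤ × ℤ => ∃ u : ℕ, 0 < u ∧
    D ^ 2 * c.1 = (u : ℤ) ^ 4 * c'.1 ∧ D ^ 3 * c.2 = (u : ℤ) ^ 6 * c'.2 ∧ Red c')
    ⟨c', u, hu, e1, e2, hr⟩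

lemma rd_dsc_eq {D : ℤ} {c : ℤ × ℤ} {u : ℕ}
    (e1 : D ^ 2 * c.1 = (u : ℤ) ^ 4 * (rd D c).1) (e2 : D ^ 3 * c.2 = (u : ℤ) ^ 6 * (rd D c).2) :
    D ^ 6 * dsc c = (u : ℤ) ^ 12 * dsc (rd D c) := by
  unfold dsc
  linear_combination (4 * ((D ^ 2 * c.1) ^ 2 + (D ^ 2 * c.1) * ((u : ℤ) ^ 4 * (rd D c).1) +
    ((u : ℤ) ^ 4 * (rd D c).1) ^ 2)) * e1 + (27 * (D ^ 3 * c.2 + (u : ℤ) ^ 6 * (rd D c).2)) * e2

lemma rd_dsc {D : ℤ} {c : ℤ × ℤ} (hD : D ≠ 0) (hc : dsc c ≠ 0) : dsc (rd D c) ≠ 0 := by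
  obtain ⟨u, hu, e1, e2, -⟩ := rd_spec hD hc
  have h := rd_dsc_eq e1 e2
  intro h0
  rw [h0, mul_zero] at h
  exact (mul_ne_zero (pow_ne_zero _ hD) hc) h

lemma rd_inj {D : ℤ} (hD : D ≠ 0) {c1 c2 : ℤ × ℤ} (h1 : dsc c1 ≠ 0) (h2 : dsc c2 ≠ 0)
    (r1 : Red c1) (r2 : Red c2) (h : rd D c1 = rd D c2) : c1 = c2 := by
  obtain ⟨u1, hu1, e1, e2, -⟩ := rd_spec hD h1
  obtain ⟨u2, hu2, f1, f2, -⟩ := rd_spec hD h2
  rw [← h] at f1 f2
  refine red_unique r1 r2 hu1 hu2 ?_ ?_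
  · apply mul_left_cancel₀ (pow_ne_zero 2 hD)
    linear_combination ((u2 : ℤ) ^ 4) * e1 - ((u1 : ℤ) ^ 4) * f1
  · apply mul_left_cancel₀ (pow_ne_zero 3 hD)
    linear_combination ((u2 : ℤ) ^ 6) * e2 - ((u1 : ℤ) ^ 6) * f2

/-- the prime-to-6 part of the conductor -/
def K6 (c : ℤ × ℤ) : ℕ :=
  ∏ p ∈ (dsc c).natAbs.primeFactors.filter (fun p => 5 ≤ p), if (p : ℤ) ∣ c.1 then p ^ 2 else p

lemma K6_rd {D : ℤ} (hD : D ≠ 0) {c : ℤ × ℤ} (hc : dsc c ≠ 0) (hr : Red c) :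
    K6 (rd D c) ≤ D.natAbs ^ 2 * K6 c := by
  classical
  obtain ⟨u, hu, e1, e2, -⟩ := rd_spec hD hc
  have e3 := rd_dsc_eq e1 e2
  set c' := rd D c with hc'
  set S' := (dsc c').natAbs.primeFactors.filter (fun p => 5 ≤ p) with hS'
  set S := (dsc c).natAbs.primeFactors.filter (fun p => 5 ≤ p) with hS
  have hone : ∀ (a : ℤ) (p : ℕ), p.Prime → 1 ≤ (if (p : ℤ) ∣ a then p ^ 2 else p) := by
    intro a p hp
    split_ifs
    · exact Nat.one_le_pow _ _ hp.pos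
    · exact hp.one_lt.le
  unfold K6
  rw [← hS', ← hS, ← prod_filter_mul_prod_filter_not S' (fun p => p ∣ D.natAbs)]
  apply Nat.mul_le_mul
  · calc ∏ p ∈ S'.filter (fun p => p ∣ D.natAbs), (if (p : ℤ) ∣ c'.1 then p ^ 2 else p)
        ≤ ∏ p ∈ S'.filter (fun p => p ∣ D.natAbs), p ^ 2 := by
          apply prod_le_prod'
          intro p hp
          have hp' : p.Prime :=
            Nat.prime_of_mem_primeFactors (mem_filter.1 (mem_filter.1 hp).1).1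
          split_ifs
          · exact le_rfl
          · exact Nat.le_self_pow (by norm_num) p
      _ ≤ ∏ p ∈ D.natAbs.primeFactors, p ^ 2 := by
          apply prod_le_prod_of_subset_of_one_le'
          · intro p hp
            obtain ⟨h1, h2⟩ := mem_filter.1 hp
            have hp' : p.Prime := Nat.prime_of_mem_primeFactors (mem_filter.1 h1).1
            exact Nat.mem_primeFactors.2 ⟨hp', h2, Int.natAbs_ne_zero.2 hD⟩
          · intro p hp _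
            exact Nat.one_le_pow _ _ (Nat.prime_of_mem_primeFactors hp).pos
      _ = (∏ p ∈ D.natAbs.primeFactors, p) ^ 2 := prod_pow _ _ _
      _ ≤ _ := Nat.pow_le_pow_left (Nat.le_of_dvd (Int.natAbs_pos.2 hD)
          (Nat.prod_primeFactors_dvd _)) 2
  · have hkey : ∀ p ∈ S'.filter (fun p => ¬ p ∣ D.natAbs),
        p ∈ S ∧ (if (p : ℤ) ∣ c'.1 then p ^ 2 else p) = if (p : ℤ) ∣ c.1 then p ^ 2 else p := by
      intro p hp
      obtain ⟨h1, h2⟩ := mem_filter.1 hp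
      obtain ⟨h3, h4⟩ := mem_filter.1 h1
      have hp' : p.Prime := Nat.prime_of_mem_primeFactors h3
      have hpp : Prime (p : ℤ) := Nat.prime_iff_prime_int.1 hp'
      have hpD : ¬ (p : ℤ) ∣ D := fun h => h2 (Int.natCast_dvd.1 h)
      have hcop : IsCoprime (p : ℤ) D := (hpp.coprime_iff_not_dvd).2 hpD
      have hpu : ¬ (p : ℤ) ∣ (u : ℤ) := by
        intro h
        refine hr p hp' ⟨?_, ?_⟩
        · have h5 : (p : ℤ) ^ 4 ∣ D ^ 2 * c.1 := by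
            rw [e1]
            exact (pow_dvd_pow_of_dvd h 4).mul_right _
          exact (hcop.pow).dvd_of_dvd_mul_left h5
        · have h5 : (p : ℤ) ^ 6 ∣ D ^ 3 * c.2 := by
            rw [e2]
            exact (pow_dvd_pow_of_dvd h 6).mul_right _
          exact (hcop.pow).dvd_of_dvd_mul_left h5
      have hiff : (p : ℤ) ∣ c'.1 ↔ (p : ℤ) ∣ c.1 := by
        constructor
        · intro h
          have h5 : (p : ℤ) ∣ D ^ 2 * c.1 := by
            rw [e1]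
            exact h.mul_left _
          rcases hpp.dvd_or_dvd h5 with h6 | h6
          · exact absurd (hpp.dvd_of_dvd_pow h6) hpD
          · exact h6
        · intro h
          have h5 : (p : ℤ) ∣ (u : ℤ) ^ 4 * c'.1 := by
            rw [← e1]
            exact h.mul_left _
          rcases hpp.dvd_or_dvd h5 with h6 | h6
          · exact absurd (hpp.dvd_of_dvd_pow h6) hpu
          · exact h6
      refine ⟨mem_filter.2 ⟨Nat.mem_primeFactors.2 ⟨hp', ?_, Int.natAbs_ne_zero.2 hc⟩, h4⟩, ?_⟩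
      · have h5 : (p : ℤ) ∣ dsc c' := Int.natCast_dvd.2 (Nat.dvd_of_mem_primeFactors h3)
        have h6 : (p : ℤ) ∣ D ^ 6 * dsc c := by
          rw [e3]
          exact h5.mul_left _
        rcases hpp.dvd_or_dvd h6 with h7 | h7
        · exact absurd (hpp.dvd_of_dvd_pow h7) hpD
        · exact Int.natCast_dvd.1 h7
      · simp only [hiff]
    calc ∏ p ∈ S'.filter (fun p => ¬ p ∣ D.natAbs), (if (p : ℤ) ∣ c'.1 then p ^ 2 else p)
        = ∏ p ∈ S'.filter (fun p => ¬ p ∣ D.natAbs), (if (p : ℤ) ∣ c.1 then p ^ 2 else p) :=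
          prod_congr rfl fun p hp => (hkey p hp).2
      _ ≤ _ := by
          apply prod_le_prod_of_subset_of_one_le'
          · intro p hp
            exact (hkey p hp).1
          · intro p hp _
            exact hone _ p (Nat.prime_of_mem_primeFactors (mem_filter.1 hp).1)

end Pool.Agent.X293.CO
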