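import Mathlib
import Pool.Agent.X293.CO.Red
import Pool.Agent.Y728.RC.Av
import Pool.Agent.W307.RS.MainQ
import Pool.Agent.W307.RT.Tors
import Pool.Agent.W261.RT.Iso
import Pool.Agent.Y667.QK.TW

/-!
# Averages over the quadratic twists in the ordering by the conductor
-/

set_option autoImplicit false

namespace Pool.Agent.X293.CO

open Finset Filter Pool.Agent.W307.RT Pool.Agent.W307.SE Pool.Agent.Y679.Cr Pool.Agent.Y728.RC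

lemma sh_eq {A B A' B' : ℤ} {u : ℚ} (hu : u ≠ 0) (e1 : (A : ℚ) = u ^ 4 * A')
    (e2 : (B : ℚ) = u ^ 6 * B') : Nonempty ((Sh A B).toAffine.Point ≃+ (Sh A' B').toAffine.Point) := by
  have h := Pool.Agent.W261.RT.iso 0 (A : ℚ) (B : ℚ) 0 u hu
  have e : (⟨0, (0 + 3 * 0) / u ^ 2, 0, ((A : ℚ) + 2 * 0 * 0 + 3 * 0 ^ 2) / u ^ 4,
      ((B : ℚ) + 0 * (A : ℚ) + 0 ^ 2 * 0 + 0 ^ 3) / u ^ 6⟩ : WeierstrassCurve ℚ) = Sh A' B' := by
    unfold Sh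
    rw [e1, e2]
    congr 1
    · simp
    · field_simp
      ring
    · field_simp
      ring
  rw [e] at h
  exact h

/-- the twist and its reduced model -/
lemma rd_iso {D : ℤ} {c : ℤ × ℤ} (hD : D ≠ 0) (hc : dsc c ≠ 0) :
    Nonempty ((Sh (D ^ 2 * c.1) (D ^ 3 * c.2)).toAffine.Point ≃+
      (Sh (rd D c).1 (rd D c).2).toAffine.Point) := by
  obtain ⟨u, hu, e1, e2, -⟩ := rd_spec hD hc
  refine sh_eq (u := (u : ℚ)) (by exact_mod_cast hu.ne') ?_ ?_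
  · exact_mod_cast e1
  · exact_mod_cast e2

lemma rd_hasT {D : ℤ} {c : ℤ × ℤ} (hD : D ≠ 0) (hc : dsc c ≠ 0) (hT : HasT 2 (Sh c.1 c.2)) :
    HasT 2 (Sh (rd D c).1 (rd D c).2) := by
  have h1 := Pool.Agent.Y667.QK.hasT_tw hD hc hT
  obtain ⟨f, hf⟩ := tors_iff.1 h1
  obtain ⟨e⟩ := rd_iso hD hc
  exact tors_iff.2 ⟨e.toAddMonoidHom.comp f, e.injective.comp hf⟩

lemma cs_K6 (c : ℤ × ℤ) : cs c = K6 c := by
  unfold cs Pool.Agent.H925R.Szpiro.condS K6 dsc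
  rw [D_neg, Int.natAbs_neg]
  refine prod_congr rfl fun p _ => ?_
  simp only [dvd_neg]

/-- **The twists by an integer.** The constants do not depend on the twist. -/
theorem tw_avg {P : ℤ × ℤ → Prop} (hP : Dn.Good P)
    (hPT : ∀ c, P c ↔ dsc c ≠ 0 ∧ Red c ∧ HasT 2 (Sh c.1 c.2)) {θ : ℝ} (hθ0 : 0 < θ)
    (hθ : θ < 2 / 3) : ∃ (C : ℝ) (Z0 : ℕ), 0 < C ∧ ∀ D : ℤ, D ≠ 0 →
    ∀ f : ℤ × ℤ → ℕ, Dn.Bdd f → ∀ Z : ℕ, Z0 ≤ Z →
    ∀ S : Finset (ℤ × ℤ), (S : Set (ℤ × ℤ)) = Gm P f Z →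
    ∑ c ∈ S, (2 : ℝ) ^ (θ *
      (Module.finrank ℤ (Sh (D ^ 2 * c.1) (D ^ 3 * c.2)).toAffine.Point : ℝ)) ≤
        C * (|D| : ℝ) ^ ((4 : ℝ) / 3) * S.card := by
  classical
  obtain ⟨C1, Z1, hC1, havg⟩ := avg hP (fun c hc => ⟨((hPT c).1 hc).1, ((hPT c).1 hc).2.2⟩) hθ0 hθ
  obtain ⟨C2, Z2, hC2, hup⟩ := Dn.Gm_up hP
  obtain ⟨c0, Z3, hc0, hlo⟩ := Dn.Gm_ge hP
  refine ⟨C1 * C2 / c0, max Z1 (max Z2 Z3), by positivity, fun D hD f hf Z hZ S hS => ?_⟩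
  set n : ℕ := D.natAbs ^ 2 with hn
  have hn1 : 1 ≤ n := Nat.one_le_pow _ _ (Int.natAbs_pos.2 hD)
  have hnr : (0 : ℝ) < n := by exact_mod_cast hn1
  have hf1 : Dn.Bdd (fun _ => 1) := fun _ => ⟨le_rfl, by norm_num⟩
  have hnD : (n : ℝ) ^ ((2 : ℝ) / 3) = (|D| : ℝ) ^ ((4 : ℝ) / 3) := by
    have e1 : (n : ℝ) = ((|D| : ℤ) : ℝ) ^ (2 : ℝ) := by
      rw [hn, Real.rpow_two, Nat.cast_pow]
      congr 1
      rw [← Int.natCast_natAbs D, Int.cast_natCast]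
    rw [e1, ← Real.rpow_mul (by exact_mod_cast abs_nonneg D), Int.cast_abs]
    norm_num
  have hZ1 : Z1 ≤ Z := (le_max_left _ _).trans hZ
  have hZ2 : Z2 ≤ Z := ((le_max_left _ _).trans (le_max_right _ _)).trans hZ
  have hZ3 : Z3 ≤ Z := ((le_max_right _ _).trans (le_max_right _ _)).trans hZ
  have hnZ : Z ≤ n * Z := Nat.le_mul_of_pos_left _ hn1
  have hmem : ∀ c ∈ S, c ∈ Gm P f Z := fun c hc => by rw [← hS]; exact mem_coe.2 hc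
  obtain ⟨S', hS'⟩ : ∃ S' : Finset (ℤ × ℤ), (S' : Set (ℤ × ℤ)) = Gm P (fun _ => 1) (n * Z) :=
    ⟨(Dn.Gm_fin hP hf1 _).toFinset, Set.Finite.coe_toFinset _⟩
  have hmaps : ∀ c ∈ S, rd D c ∈ S' := by
    intro c hc
    obtain ⟨h1, h2⟩ := hmem c hc
    obtain ⟨k1, k2, k3⟩ := (hPT c).1 h1
    rw [← mem_coe, hS']
    refine ⟨(hPT _).2 ⟨rd_dsc hD k1, ?_, rd_hasT hD k1 k3⟩, ?_⟩
    · obtain ⟨u, -, -, -, h⟩ := rd_spec hD k1
      exact h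
    · rw [one_mul, cs_K6]
      refine (K6_rd hD k1 k2).trans (Nat.mul_le_mul_left _ ?_)
      rw [← cs_K6]
      exact cs_le (hf c).1 h2
  have hinj : Set.InjOn (rd D) (S : Set (ℤ × ℤ)) := by
    intro c1 h1 c2 h2 h
    obtain ⟨k1, k2, -⟩ := (hPT c1).1 (hmem c1 h1).1
    obtain ⟨l1, l2, -⟩ := (hPT c2).1 (hmem c2 h2).1
    exact rd_inj hD k1 l1 k2 l2 h
  have hterm : ∀ c ∈ S, (2 : ℝ) ^ (θ *
      (Module.finrank ℤ (Sh (D ^ 2 * c.1) (D ^ 3 * c.2)).toAffine.Point : ℝ)) ≤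
      ((SelR (rd D c).1 (rd D c).2).ncard : ℝ) ^ θ := by
    intro c hc
    obtain ⟨k1, k2, k3⟩ := (hPT c).1 (hmem c hc).1
    obtain ⟨e⟩ := rd_iso hD k1
    have e2 : Module.finrank ℤ (Sh (D ^ 2 * c.1) (D ^ 3 * c.2)).toAffine.Point =
        Module.finrank ℤ (Sh (rd D c).1 (rd D c).2).toAffine.Point :=
      LinearEquiv.finrank_eq e.toIntLinearEquiv
    rw [e2]
    have h4 := four_le (rd_dsc hD k1) (rd_hasT hD k1 k3)
    have h5 : (2 : ℝ) ^ Module.finrank ℤ (Sh (rd D c).1 (rd D c).2).toAffine.Point ≤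
        ((SelR (rd D c).1 (rd D c).2).ncard : ℝ) := by
      have : 2 ^ Module.finrank ℤ (Sh (rd D c).1 (rd D c).2).toAffine.Point ≤
        (SelR (rd D c).1 (rd D c).2).ncard := by omega
      exact_mod_cast this
    calc (2 : ℝ) ^ (θ * (Module.finrank ℤ (Sh (rd D c).1 (rd D c).2).toAffine.Point : ℝ))
        = ((2 : ℝ) ^ Module.finrank ℤ (Sh (rd D c).1 (rd D c).2).toAffine.Point) ^ θ := by
          rw [mul_comm, Real.rpow_mul (by norm_num), Real.rpow_natCast]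
      _ ≤ _ := Real.rpow_le_rpow (by positivity) h5 hθ0.le
  have hcard : (S'.card : ℝ) ≤ C2 * (((n * Z : ℕ) : ℝ)) ^ ((2 : ℝ) / 3) := by
    have := hup _ hf1 (n * Z) (hZ2.trans hnZ)
    rw [← hS', Set.ncard_coe_finset] at this
    exact this
  have hcard2 : c0 * (Z : ℝ) ^ ((2 : ℝ) / 3) ≤ (S.card : ℝ) := by
    have := hlo f hf Z hZ3
    rw [← hS, Set.ncard_coe_finset] at this
    exact this
  calc ∑ c ∈ S, (2 : ℝ) ^ (θ *
        (Module.finrank ℤ (Sh (D ^ 2 * c.1) (D ^ 3 * c.2)).toAffine.Point : ℝ))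
      ≤ ∑ c ∈ S, ((SelR (rd D c).1 (rd D c).2).ncard : ℝ) ^ θ := sum_le_sum hterm
    _ = ∑ c ∈ S.image (rd D), ((SelR c.1 c.2).ncard : ℝ) ^ θ := by
        rw [sum_image hinj]
    _ ≤ ∑ c ∈ S', ((SelR c.1 c.2).ncard : ℝ) ^ θ := by
        apply sum_le_sum_of_subset_of_nonneg
        · intro c hc
          obtain ⟨c1, h1, rfl⟩ := mem_image.1 hc
          exact hmaps c1 h1
        · intro c _ _
          positivity
    _ ≤ C1 * S'.card := havg _ hf1 (n * Z) (hZ1.trans hnZ) S' hS'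
    _ ≤ C1 * (C2 * (((n * Z : ℕ) : ℝ)) ^ ((2 : ℝ) / 3)) := mul_le_mul_of_nonneg_left hcard hC1.le
    _ = C1 * C2 * (n : ℝ) ^ ((2 : ℝ) / 3) * (Z : ℝ) ^ ((2 : ℝ) / 3) := by
        rw [Nat.cast_mul, Real.mul_rpow (Nat.cast_nonneg _) (Nat.cast_nonneg _)]
        ring
    _ = C1 * C2 / c0 * (|D| : ℝ) ^ ((4 : ℝ) / 3) * (c0 * (Z : ℝ) ^ ((2 : ℝ) / 3)) := by
        rw [hnD]
        field_simp
    _ ≤ _ := mul_le_mul_of_nonneg_left hcard2 (by positivity)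

end Pool.Agent.X293.CO
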