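import Mathlib
import Pool.Agent.X293.CO.Tw

/-!
# Averages over multiquadratic fields in the ordering by the conductor
-/

set_option autoImplicit false

namespace Pool.Agent.X293.CO

open Finset Filter Pool.Agent.W307.RT Pool.Agent.W307.SE Pool.Agent.Y679.Cr Pool.Agent.Y728.RC
open Pool.Agent.W307.RS (ShK)

lemma two_pow_avg' {ι : Type} [Fintype ι] [Nonempty ι] (f : ι → ℕ) (n : ℕ)
    (hn : Fintype.card ι = n) (R : ℕ) (hR : R ≤ ∑ i, f i) {θ : ℝ} (hθ : 0 ≤ θ) :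
    (2 : ℝ) ^ (θ * ((R : ℝ) / (n : ℝ))) ≤ ∑ i, (2 : ℝ) ^ (θ * (f i : ℝ)) := by
  obtain ⟨i0, hi0⟩ := Finite.exists_max f
  have hn0 : 0 < n := by rw [← hn]; exact Fintype.card_pos
  have h1 : (R : ℝ) / n ≤ f i0 := by
    rw [div_le_iff₀ (by exact_mod_cast hn0)]
    have h2 : R ≤ f i0 * n := by
      calc R ≤ ∑ i, f i := hR
        _ ≤ ∑ _i : ι, f i0 := sum_le_sum fun i _ => hi0 i
        _ = f i0 * n := by rw [sum_const, card_univ, hn, smul_eq_mul, mul_comm]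
    exact_mod_cast h2
  calc (2 : ℝ) ^ (θ * ((R : ℝ) / (n : ℝ))) ≤ (2 : ℝ) ^ (θ * (f i0 : ℝ)) :=
        Real.rpow_le_rpow_of_exponent_le (by norm_num) (mul_le_mul_of_nonneg_left h1 hθ)
    _ ≤ ∑ i, (2 : ℝ) ^ (θ * (f i : ℝ)) :=
        single_le_sum (f := fun i => (2 : ℝ) ^ (θ * (f i : ℝ))) (fun _ _ => by positivity)
          (mem_univ i0)

lemma fin_tw' {D : ℤ} {c : ℤ × ℤ} (hD : D ≠ 0) (hc : dsc c ≠ 0) (hT : HasT 2 (Sh c.1 c.2)) :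
    Module.Finite ℤ (Sh (D ^ 2 * c.1) (D ^ 3 * c.2)).toAffine.Point := by
  obtain ⟨F, -, hF⟩ := Pool.Agent.W513.FK.parf
  obtain ⟨-, -, -, -, -, e1, e2, e3, he, -, -⟩ := hF c hc hT
  exact Pool.Agent.W307.RG.fin_tw hc he hD

open Classical in
lemma rank_mq {F : Type} [Field F] [CharZero F] [Algebra ℚ F] {r : ℕ} {x : Fin r → F}
    {d : Fin r → ℤ} (hx : ∀ i, x i ^ 2 = (d i : F)) (hd : ∀ i, d i ≠ 0)
    (hgen : IntermediateField.adjoin ℚ (Set.range x) = ⊤) {c : ℤ × ℤ} (hc : dsc c ≠ 0)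
    (hT : HasT 2 (Sh c.1 c.2)) {D : ℤ} (hD : D ≠ 0) :
    Module.finrank ℤ (ShK ((D ^ 2 * c.1 : ℤ) : F) ((D ^ 3 * c.2 : ℤ) : F)).toAffine.Point ≤
      ∑ T : Finset (Fin r), Module.finrank ℤ (Sh ((D * ∏ i ∈ T, d i) ^ 2 * c.1)
        ((D * ∏ i ∈ T, d i) ^ 3 * c.2)).toAffine.Point := by
  have hdT : ∀ T : Finset (Fin r), (D * ∏ i ∈ T, d i) ≠ 0 := fun T =>
    mul_ne_zero hD (prod_ne_zero_iff.2 fun i _ => hd i)
  have hc' : 4 * (D ^ 2 * c.1) ^ 3 + 27 * (D ^ 3 * c.2) ^ 2 ≠ 0 := by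
    have e : 4 * (D ^ 2 * c.1) ^ 3 + 27 * (D ^ 3 * c.2) ^ 2 = D ^ 6 * dsc c := by
      unfold dsc
      ring
    rw [e]
    exact mul_ne_zero (pow_ne_zero _ hD) hc
  have h1 := Pool.Agent.W307.RS.mq2 F r x d hx hd hgen (D ^ 2 * c.1) (D ^ 3 * c.2) hc'
  have he : ∀ T : Finset (Fin r), Sh ((∏ i ∈ T, d i) ^ 2 * (D ^ 2 * c.1))
      ((∏ i ∈ T, d i) ^ 3 * (D ^ 3 * c.2)) = Sh ((D * ∏ i ∈ T, d i) ^ 2 * c.1)
        ((D * ∏ i ∈ T, d i) ^ 3 * c.2) := by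
    intro T
    congr 1 <;> ring
  have h2 : ∀ T : Finset (Fin r), Module.rank ℤ
      (Sh ((∏ i ∈ T, d i) ^ 2 * (D ^ 2 * c.1)) ((∏ i ∈ T, d i) ^ 3 * (D ^ 3 * c.2))).toAffine.Point =
      ((Module.finrank ℤ (Sh ((D * ∏ i ∈ T, d i) ^ 2 * c.1)
        ((D * ∏ i ∈ T, d i) ^ 3 * c.2)).toAffine.Point : ℕ) : Cardinal) := by
    intro T
    rw [he T]
    have := fin_tw' (hdT T) hc hT
    exact (Module.finrank_eq_rank ℤ _).symm
  rw [sum_congr rfl fun T _ => h2 T, ← Nat.cast_sum] at h1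
  exact Module.finrank_le_of_rank_le h1

lemma sum_abs {r : ℕ} (D : ℤ) (d : Fin r → ℤ) :
    ∑ T : Finset (Fin r), (|((D * ∏ i ∈ T, d i : ℤ) : ℝ)|) ^ ((4 : ℝ) / 3) =
      |(D : ℝ)| ^ ((4 : ℝ) / 3) * ∏ i, (1 + |(d i : ℝ)| ^ ((4 : ℝ) / 3)) := by
  rw [Finset.prod_one_add]
  rw [← Finset.powerset_univ, mul_sum]
  refine sum_congr rfl fun T _ => ?_
  rw [Int.cast_mul, abs_mul, Real.mul_rpow (abs_nonneg _) (abs_nonneg _), Int.cast_prod,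
    Finset.abs_prod, Real.finsetProd_rpow _ _ (fun i _ => abs_nonneg _)]

open Classical in
/-- **The average over the multiquadratic fields.** -/
theorem mq_avg {P : ℤ × ℤ → Prop} (hP : Dn.Good P)
    (hPT : ∀ c, P c ↔ dsc c ≠ 0 ∧ Red c ∧ HasT 2 (Sh c.1 c.2)) {θ : ℝ} (hθ0 : 0 < θ)
    (hθ : θ < 2 / 3) : ∃ (C : ℝ) (Z0 : ℕ), 0 < C ∧
    ∀ (F : Type) [Field F] [CharZero F] [Algebra ℚ F] (r : ℕ) (x : Fin r → F) (d : Fin r → ℤ),
    (∀ i, x i ^ 2 = (d i : F)) → (∀ i, d i ≠ 0) →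
    IntermediateField.adjoin ℚ (Set.range x) = ⊤ → ∀ D : ℤ, D ≠ 0 →
    ∀ f : ℤ × ℤ → ℕ, Dn.Bdd f → ∀ Z : ℕ, Z0 ≤ Z →
    ∀ S : Finset (ℤ × ℤ), (S : Set (ℤ × ℤ)) = Gm P f Z →
    ∑ c ∈ S, (2 : ℝ) ^ (θ * ((Module.finrank ℤ
      (ShK ((D ^ 2 * c.1 : ℤ) : F) ((D ^ 3 * c.2 : ℤ) : F)).toAffine.Point : ℝ) / 2 ^ r)) ≤
        C * (|(D : ℝ)| ^ ((4 : ℝ) / 3) * ∏ i, (1 + |(d i : ℝ)| ^ ((4 : ℝ) / 3))) * S.card := by
  obtain ⟨C, Z0, hC, havg⟩ := tw_avg hP hPT hθ0 hθ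
  refine ⟨C, Z0, hC, fun F _ _ _ r x d hx hd hgen D hD f hf Z hZ S hS => ?_⟩
  have hdT : ∀ T : Finset (Fin r), (D * ∏ i ∈ T, d i) ≠ 0 := fun T =>
    mul_ne_zero hD (prod_ne_zero_iff.2 fun i _ => hd i)
  rw [← sum_abs, mul_sum, sum_mul]
  refine le_trans ?_ (sum_le_sum fun T _ => havg (D * ∏ i ∈ T, d i) (hdT T) f hf Z hZ S hS)
  rw [sum_comm]
  refine sum_le_sum fun c hc => ?_
  have hc' : c ∈ Gm P f Z := by rw [← hS]; exact mem_coe.2 hc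
  obtain ⟨h1, -, h3⟩ := (hPT c).1 hc'.1
  have h4 := two_pow_avg' (ι := Finset (Fin r)) (fun T => Module.finrank ℤ
    (Sh ((D * ∏ i ∈ T, d i) ^ 2 * c.1) ((D * ∏ i ∈ T, d i) ^ 3 * c.2)).toAffine.Point) (2 ^ r)
    (by rw [Fintype.card_finset, Fintype.card_fin]) _ (rank_mq hx hd hgen h1 h3 hD) hθ0.le
  push_cast at h4 ⊢
  exact h4

/-- Jensen's inequality -/
lemma jensen2 {ι : Type} (s : Finset ι) (hs : s.Nonempty) (g : ι → ℝ) :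
    (2 : ℝ) ^ ((∑ i ∈ s, g i) / s.card) ≤ (∑ i ∈ s, (2 : ℝ) ^ g i) / s.card := by
  have hc : (0 : ℝ) < s.card := by exact_mod_cast card_pos.2 hs
  have h := (convexOn_exp).map_sum_le (t := s) (w := fun _ => (1 : ℝ) / s.card)
    (p := fun i => Real.log 2 * g i) (fun i _ => by positivity)
    (by rw [sum_const, nsmul_eq_mul]; field_simp) (fun i _ => Set.mem_univ _)
  simp only [smul_eq_mul] at h
  have e1 : ∑ i ∈ s, (1 : ℝ) / s.card * (Real.log 2 * g i) =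
      Real.log 2 * ((∑ i ∈ s, g i) / s.card) := by
    rw [sum_div, mul_sum]
    refine sum_congr rfl fun i _ => ?_
    ring
  have e2 : ∑ i ∈ s, (1 : ℝ) / s.card * Real.exp (Real.log 2 * g i) =
      (∑ i ∈ s, (2 : ℝ) ^ g i) / s.card := by
    rw [sum_div]
    refine sum_congr rfl fun i _ => ?_
    rw [Real.rpow_def_of_pos (by norm_num)]
    ring
  rw [e1, e2] at h
  rwa [Real.rpow_def_of_pos (by norm_num)]

lemma log_le {x : ℝ} (hx : 0 ≤ x) : Real.log (1 + x ^ ((4 : ℝ) / 3)) ≤ 4 / 3 * Real.log (1 + x) := by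
  rw [← Real.log_rpow (by positivity)]
  apply Real.log_le_log (by positivity)
  have h1 : x ^ ((4 : ℝ) / 3) = x * x ^ ((1 : ℝ) / 3) := by
    rcases hx.eq_or_lt with h | h
    · rw [← h, zero_mul, Real.zero_rpow (by norm_num)]
    · rw [← Real.rpow_one_add' hx (by norm_num)]
      norm_num
  have h2 : (1 + x) ^ ((4 : ℝ) / 3) = (1 + x) * (1 + x) ^ ((1 : ℝ) / 3) := by
    rw [← Real.rpow_one_add' (by positivity) (by norm_num)]
    norm_num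
  rw [h1, h2]
  have h3 : x ^ ((1 : ℝ) / 3) ≤ (1 + x) ^ ((1 : ℝ) / 3) :=
    Real.rpow_le_rpow hx (by linarith) (by norm_num)
  have h4 : 1 ≤ (1 + x) ^ ((1 : ℝ) / 3) := Real.one_le_rpow (by linarith) (by norm_num)
  nlinarith [mul_le_mul_of_nonneg_left h3 hx]

/-- from the exponential average to the average -/
lemma of_exp {ι : Type} (s : Finset ι) (g : ι → ℝ) {r : ℕ} {C B : ℝ} (hC : 1 ≤ C) (hB : 0 < B)
    {L : ℝ} (hL : Real.log B ≤ 4 / 3 * L) (hL0 : 0 ≤ L)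
    (h : ∑ i ∈ s, (2 : ℝ) ^ ((13 / 20 : ℝ) * (g i / 2 ^ r)) ≤ C * B * s.card) :
    ∑ i ∈ s, g i ≤ 2 ^ r * (3 * Real.log C + 3 * L) * s.card := by
  rcases s.eq_empty_or_nonempty with rfl | hs
  · simp
  have hc : (0 : ℝ) < s.card := by exact_mod_cast card_pos.2 hs
  have h1 := jensen2 s hs (fun i => (13 / 20 : ℝ) * (g i / 2 ^ r))
  have h2 : (2 : ℝ) ^ ((∑ i ∈ s, (13 / 20 : ℝ) * (g i / 2 ^ r)) / s.card) ≤ C * B :=
    h1.trans ((div_le_iff₀ hc).2 h)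
  have h3 := Real.log_le_log (by positivity) h2
  rw [Real.log_rpow (by norm_num), Real.log_mul (by positivity) hB.ne', ← mul_sum, ← sum_div] at h3
  set A : ℝ := (∑ i ∈ s, g i) / 2 ^ r / s.card with hA
  have e : 13 / 20 * ((∑ i ∈ s, g i) / 2 ^ r) / (s.card : ℝ) = 13 / 20 * A := by
    rw [hA]
    ring
  rw [e] at h3
  have h4 : (0.6931471803 : ℝ) < Real.log 2 := Real.log_two_gt_d9
  have hlC : 0 ≤ Real.log C := Real.log_nonneg hC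
  have h5 : A ≤ 3 * Real.log C + 3 * L := by
    by_contra hcon
    push Not at hcon
    have h6 : 0 < A := lt_of_le_of_lt (by positivity) hcon
    nlinarith [mul_pos h6 (sub_pos.2 h4)]
  have h7 : ∑ i ∈ s, g i = 2 ^ r * A * s.card := by
    have h8 : A * (2 ^ r * s.card) = ∑ i ∈ s, g i := by
      rw [hA, div_div, div_mul_cancel₀ _ (by positivity)]
    rw [← h8]
    ring
  clear_value A
  rw [h7]
  exact mul_le_mul_of_nonneg_right (mul_le_mul_of_nonneg_left h5 (by positivity))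
    (Nat.cast_nonneg _)

end Pool.Agent.X293.CO
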