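import Mathlib
import Pool.Agent.X293.CO.Mq
import Pool.Agent.TH841.NF.One
import Pool.Agent.Y667.RZ.Sha

/-!
# The Selmer coranks over multiquadratic fields in the ordering by the conductor
-/

set_option autoImplicit false

namespace Pool.Agent.X293.CO

open Finset Filter Pool.Agent.W307.RT Pool.Agent.W307.SE Pool.Agent.Y679.Cr Pool.Agent.Y728.RC

lemma locR_scale {K : Type} [Field K] [CharZero K] {A B A' B' : ℤ} {u : ℕ} (hu : 0 < u)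
    (e1 : A = (u : ℤ) ^ 4 * A') (e2 : B = (u : ℤ) ^ 6 * B') {d d' : ℤ → ℤ}
    (hd : ∀ e : ℤ, e ^ 3 + A' * e + B' = 0 → d' e = d ((u : ℤ) ^ 2 * e)) (h : LocR K A B d) :
    LocR K A' B' d' := by
  obtain ⟨x, y, hy, hxy, h⟩ := h
  have hu' : (u : K) ≠ 0 := by exact_mod_cast hu.ne'
  refine ⟨x / (u : K) ^ 2, y / (u : K) ^ 3, div_ne_zero hy (pow_ne_zero _ hu'), ?_,
    fun e he => ?_⟩
  · rw [e1, e2] at hxy
    push_cast at hxy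
    field_simp
    linear_combination hxy
  · have h1 := h ((u : ℤ) ^ 2 * e) (by rw [e1, e2]; linear_combination ((u : ℤ) ^ 6) * he)
    rw [hd e he]
    obtain ⟨t, ht⟩ := h1
    refine ⟨t / (u : K), ?_⟩
    push_cast at ht
    field_simp
    linear_combination ht

/-- the 2-Selmer groups of a curve and of its reduced model -/
lemma selR_scale {A B A' B' e1 e2 e3 : ℤ} {u : ℕ} (hu : 0 < u) (h1 : A = (u : ℤ) ^ 4 * A')
    (h2 : B = (u : ℤ) ^ 6 * B')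
    (he : ∀ x : ℤ, x ^ 3 + A' * x + B' = (x - e1) * (x - e2) * (x - e3))
    (hf : (SelR A' B').Finite) :
    (SelR A B).Finite ∧ (SelR A B).ncard ≤ (SelR A' B').ncard := by
  classical
  set φ : (ℤ → ℤ) → (ℤ → ℤ) := fun d e =>
    if e ^ 3 + A' * e + B' = 0 then d ((u : ℤ) ^ 2 * e) else 1 with hφ
  have hroot : ∀ e : ℤ, e ^ 3 + A * e + B = 0 →
      ∃ e' : ℤ, e' ^ 3 + A' * e' + B' = 0 ∧ e = (u : ℤ) ^ 2 * e' := by
    intro e h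
    have a0 := he 0
    have a1 := he 1
    have a2 := he (-1)
    have s : e3 = -e1 - e2 := by
      have : 2 * (e1 + e2 + e3) = 0 := by linear_combination a1 + a2 - 2 * a0
      linarith
    have hB : B' = -(e1 * e2 * e3) := by linear_combination a0
    have hA : A' = e1 * e2 + e1 * e3 + e2 * e3 := by
      rw [s] at a1 hB ⊢
      linear_combination a1 - hB
    have h3 : (e - (u : ℤ) ^ 2 * e1) * (e - (u : ℤ) ^ 2 * e2) * (e - (u : ℤ) ^ 2 * e3) = 0 := by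
      rw [← h, h1, h2, hA, hB, s]
      ring
    rcases mul_eq_zero.1 h3 with h4 | h4
    · rcases mul_eq_zero.1 h4 with h5 | h5
      · exact ⟨e1, by rw [he e1]; ring, sub_eq_zero.1 h5⟩
      · exact ⟨e2, by rw [he e2]; ring, sub_eq_zero.1 h5⟩
    · exact ⟨e3, by rw [he e3]; ring, sub_eq_zero.1 h4⟩
  have hmaps : ∀ d ∈ SelR A B, φ d ∈ SelR A' B' := by
    rintro d ⟨s1, s2, s3, s4⟩
    have hd : ∀ e : ℤ, e ^ 3 + A' * e + B' = 0 → φ d e = d ((u : ℤ) ^ 2 * e) :=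
      fun e he' => if_pos he'
    refine ⟨fun e => ?_, fun e he' => if_neg he', locR_scale hu h1 h2 hd s3,
      fun p _ => locR_scale hu h1 h2 hd (s4 p)⟩
    by_cases h : e ^ 3 + A' * e + B' = 0
    · rw [hd e h]
      exact s1 _
    · have : φ d e = 1 := if_neg h
      rw [this]
      exact squarefree_one
  have hinj : Set.InjOn φ (SelR A B) := by
    rintro d ⟨-, s2, -, -⟩ d' ⟨-, s2', -, -⟩ h
    funext e
    by_cases h0 : e ^ 3 + A * e + B = 0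
    · obtain ⟨e', h3, h4⟩ := hroot e h0
      have h5 := congr_fun h e'
      have h6 : φ d e' = d ((u : ℤ) ^ 2 * e') := if_pos h3
      have h7 : φ d' e' = d' ((u : ℤ) ^ 2 * e') := if_pos h3
      rw [h6, h7, ← h4] at h5
      exact h5
    · rw [s2 e h0, s2' e h0]
  exact ⟨Set.Finite.of_injOn hmaps hinj hf, Set.ncard_le_ncard_of_injOn φ hmaps hinj hf⟩

lemma roots_of {c : ℤ × ℤ} (hc : dsc c ≠ 0) (hT : HasT 2 (Sh c.1 c.2)) : ∃ e1 e2 e3 : ℤ,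
    ∀ x : ℤ, x ^ 3 + c.1 * x + c.2 = (x - e1) * (x - e2) * (x - e3) := by
  obtain ⟨F, -, hF⟩ := Pool.Agent.W513.FK.parf
  obtain ⟨-, -, -, -, -, e1, e2, e3, he, -, -⟩ := hF c hc hT
  exact ⟨e1, e2, e3, he⟩

lemma sel_rd {D : ℤ} {c : ℤ × ℤ} (hD : D ≠ 0) (hc : dsc c ≠ 0) (hT : HasT 2 (Sh c.1 c.2)) :
    (SelR (D ^ 2 * c.1) (D ^ 3 * c.2)).Finite ∧
      (SelR (D ^ 2 * c.1) (D ^ 3 * c.2)).ncard ≤ (SelR (rd D c).1 (rd D c).2).ncard := by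
  obtain ⟨u, hu, e1, e2, -⟩ := rd_spec hD hc
  obtain ⟨K0, -, hK⟩ := sel_le
  obtain ⟨f1, f2, f3, hf⟩ := roots_of (rd_dsc hD hc) (rd_hasT hD hc hT)
  exact selR_scale hu e1 e2 hf (hK _ (rd_dsc hD hc) (rd_hasT hD hc hT)).1

/-- **The 2-Selmer groups of the twists by an integer.** The constants do not depend on the
twist. -/
theorem tw_sel {P : ℤ × ℤ → Prop} (hP : Dn.Good P)
    (hPT : ∀ c, P c ↔ dsc c ≠ 0 ∧ Red c ∧ HasT 2 (Sh c.1 c.2)) {θ : ℝ} (hθ0 : 0 < θ)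
    (hθ : θ < 2 / 3) : ∃ (C : ℝ) (Z0 : ℕ), 0 < C ∧ ∀ D : ℤ, D ≠ 0 →
    ∀ f : ℤ × ℤ → ℕ, Dn.Bdd f → ∀ Z : ℕ, Z0 ≤ Z →
    ∀ S : Finset (ℤ × ℤ), (S : Set (ℤ × ℤ)) = Gm P f Z →
    ∑ c ∈ S, ((SelR (D ^ 2 * c.1) (D ^ 3 * c.2)).ncard : ℝ) ^ θ ≤
        C * (|D| : ℝ) ^ ((4 : ℝ) / 3) * S.card := by
  classical
  obtain ⟨C1, Z1, hC1, havg⟩ := avg hP (fun c hc => ⟨((hPT c).1 hc).1, ((hPT c).1 hc).2.2⟩) hθ0 hθ
  obtain ⟨C2, Z2, hC2, hup⟩ := Dn.Gm_up hP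
  obtain ⟨c0, Z3, hc0, hlo⟩ := Dn.Gm_ge hP
  refine ⟨C1 * C2 / c0, max Z1 (max Z2 Z3), by positivity, fun D hD f hf Z hZ S hS => ?_⟩
  set n : ℕ := D.natAbs ^ 2 with hn
  have hn1 : 1 ≤ n := Nat.one_le_pow _ _ (Int.natAbs_pos.2 hD)
  have hnr : (0 : ℝ) < n := by exact_mod_cast hn1
  have hf1 : Dn.Bdd (fun _ => 1) := fun _ => ⟨le_rfl, by norm_num⟩
  have hnD : (n : ℝ) ^ ((2 : ℝ) / 3) = (|D| : ℝ) ^ ((4 : ℝ) / 3) := by
    have e1 : (n : ℝ) = ((|D| : ℤ) : ℝ) ^ (2 : ℝ) := by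
      rw [hn, Real.rpow_two, Nat.cast_pow]
      congr 1
      rw [← Int.natCast_natAbs D, Int.cast_natCast]
    rw [e1, ← Real.rpow_mul (by exact_mod_cast abs_nonneg D), Int.cast_abs]
    norm_num
  have hZ1 : Z1 ≤ Z := (le_max_left _ _).trans hZ
  have hZ2 : Z2 ≤ Z := ((le_max_left _ _).trans (le_max_right _ _)).trans hZ
  have hZ3 : Z3 ≤ Z := ((le_max_right _ _).trans (le_max_right _ _)).trans hZ
  have hnZ : Z ≤ n * Z := Nat.le_mul_of_pos_left _ hn1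
  have hmem : ∀ c ∈ S, c ∈ Gm P f Z := fun c hc => by rw [← hS]; exact mem_coe.2 hc
  obtain ⟨S', hS'⟩ : ∃ S' : Finset (ℤ × ℤ), (S' : Set (ℤ × ℤ)) = Gm P (fun _ => 1) (n * Z) :=
    ⟨(Dn.Gm_fin hP hf1 _).toFinset, Set.Finite.coe_toFinset _⟩
  have hmaps : ∀ c ∈ S, rd D c ∈ S' := by
    intro c hc
    obtain ⟨h1, h2⟩ := hmem c hc
    obtain ⟨k1, k2, k3⟩ := (hPT c).1 h1
    rw [← mem_coe, hS']
    refine ⟨(hPT _).2 ⟨rd_dsc hD k1, ?_, rd_hasT hD k1 k3⟩, ?_⟩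
    · obtain ⟨u, -, -, -, h⟩ := rd_spec hD k1
      exact h
    · rw [one_mul, cs_K6]
      refine (K6_rd hD k1 k2).trans (Nat.mul_le_mul_left _ ?_)
      rw [← cs_K6]
      exact cs_le (hf c).1 h2
  have hinj : Set.InjOn (rd D) (S : Set (ℤ × ℤ)) := by
    intro c1 h1 c2 h2 h
    obtain ⟨k1, k2, -⟩ := (hPT c1).1 (hmem c1 h1).1
    obtain ⟨l1, l2, -⟩ := (hPT c2).1 (hmem c2 h2).1
    exact rd_inj hD k1 l1 k2 l2 h
  have hterm : ∀ c ∈ S, ((SelR (D ^ 2 * c.1) (D ^ 3 * c.2)).ncard : ℝ) ^ θ ≤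
      ((SelR (rd D c).1 (rd D c).2).ncard : ℝ) ^ θ := by
    intro c hc
    obtain ⟨k1, k2, k3⟩ := (hPT c).1 (hmem c hc).1
    exact Real.rpow_le_rpow (Nat.cast_nonneg _) (Nat.cast_le.2 (sel_rd hD k1 k3).2) hθ0.le
  have hcard : (S'.card : ℝ) ≤ C2 * (((n * Z : ℕ) : ℝ)) ^ ((2 : ℝ) / 3) := by
    have := hup _ hf1 (n * Z) (hZ2.trans hnZ)
    rw [← hS', Set.ncard_coe_finset] at this
    exact this
  have hcard2 : c0 * (Z : ℝ) ^ ((2 : ℝ) / 3) ≤ (S.card : ℝ) := by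
    have := hlo f hf Z hZ3
    rw [← hS, Set.ncard_coe_finset] at this
    exact this
  calc ∑ c ∈ S, ((SelR (D ^ 2 * c.1) (D ^ 3 * c.2)).ncard : ℝ) ^ θ
      ≤ ∑ c ∈ S, ((SelR (rd D c).1 (rd D c).2).ncard : ℝ) ^ θ := sum_le_sum hterm
    _ = ∑ c ∈ S.image (rd D), ((SelR c.1 c.2).ncard : ℝ) ^ θ := by
        rw [sum_image hinj]
    _ ≤ ∑ c ∈ S', ((SelR c.1 c.2).ncard : ℝ) ^ θ := by
        apply sum_le_sum_of_subset_of_nonneg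
        · intro c hc
          obtain ⟨c1, h1, rfl⟩ := mem_image.1 hc
          exact hmaps c1 h1
        · intro c _ _
          positivity
    _ ≤ C1 * S'.card := havg _ hf1 (n * Z) (hZ1.trans hnZ) S' hS'
    _ ≤ C1 * (C2 * (((n * Z : ℕ) : ℝ)) ^ ((2 : ℝ) / 3)) := mul_le_mul_of_nonneg_left hcard hC1.le
    _ = C1 * C2 * (n : ℝ) ^ ((2 : ℝ) / 3) * (Z : ℝ) ^ ((2 : ℝ) / 3) := by
        rw [Nat.cast_mul, Real.mul_rpow (Nat.cast_nonneg _) (Nat.cast_nonneg _)]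
        ring
    _ = C1 * C2 / c0 * (|D| : ℝ) ^ ((4 : ℝ) / 3) * (c0 * (Z : ℝ) ^ ((2 : ℝ) / 3)) := by
        rw [hnD]
        field_simp
    _ ≤ _ := mul_le_mul_of_nonneg_left hcard2 (by positivity)

/-- the geometric mean and the arithmetic mean -/
lemma two_pow_mean {ι : Type} [Fintype ι] [Nonempty ι] (N : ι → ℝ) (hN : ∀ i, 0 ≤ N i) {n : ℕ}
    (hn : Fintype.card ι = n) {R : ℕ} (hR : (2 : ℝ) ^ R ≤ ∏ i, N i) {θ : ℝ} (hθ : 0 ≤ θ) :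
    (2 : ℝ) ^ (θ * ((R : ℝ) / (n : ℝ))) ≤ (∑ i, N i ^ θ) / n := by
  have hn0 : 0 < n := by rw [← hn]; exact Fintype.card_pos
  have hnr : (0 : ℝ) < n := by exact_mod_cast hn0
  have h1 : ∏ i, (N i ^ θ) ^ ((1 : ℝ) / n) ≤ ∑ i, (1 : ℝ) / n * N i ^ θ :=
    Real.geom_mean_le_arith_mean_weighted univ (fun _ => (1 : ℝ) / n) (fun i => N i ^ θ)
      (fun _ _ => by positivity) (by
        rw [sum_const, card_univ, hn, nsmul_eq_mul]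
        field_simp) (fun i _ => Real.rpow_nonneg (hN i) _)
  have h2 : (2 : ℝ) ^ (θ * ((R : ℝ) / (n : ℝ))) ≤ ∏ i, (N i ^ θ) ^ ((1 : ℝ) / n) := by
    have h3 : ∏ i, (N i ^ θ) ^ ((1 : ℝ) / n) = (∏ i, N i) ^ (θ / n) := by
      rw [← Real.finsetProd_rpow _ _ (fun i _ => hN i)]
      refine prod_congr rfl fun i _ => ?_
      rw [← Real.rpow_mul (hN i)]
      congr 1
      ring
    have h4 : (2 : ℝ) ^ (θ * ((R : ℝ) / (n : ℝ))) = ((2 : ℝ) ^ R) ^ (θ / n) := by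
      rw [← Real.rpow_natCast, ← Real.rpow_mul (by norm_num)]
      congr 1
      ring
    rw [h3, h4]
    exact Real.rpow_le_rpow (by positivity) hR (by positivity)
  refine (h2.trans h1).trans (le_of_eq ?_)
  rw [sum_div]
  refine sum_congr rfl fun i _ => ?_
  ring

open Pool.Agent.TH841.NF (Gen EF) in
open Pool.Agent.TH841.NF.D (HasDiv crk rk) in
open scoped Classical in
/-- the rank and the corank over a multiquadratic field -/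
lemma crk_mq {F : Type} [Field F] [NumberField F] {r : ℕ} {d : Fin r → ℤ} (hF : Gen F d)
    (hd : ∀ i, d i ≠ 0) {c : ℤ × ℤ} (hc : dsc c ≠ 0) (hT : HasT 2 (Sh c.1 c.2)) {D : ℤ}
    (hD : D ≠ 0) : (HasDiv (EF (D ^ 2 * c.1) (D ^ 3 * c.2) F)
      (crk (EF (D ^ 2 * c.1) (D ^ 3 * c.2) F)) ∧
      ∀ q : ℕ, HasDiv (EF (D ^ 2 * c.1) (D ^ 3 * c.2) F) q →
        q ≤ crk (EF (D ^ 2 * c.1) (D ^ 3 * c.2) F)) ∧
    (2 : ℝ) ^ (rk (EF (D ^ 2 * c.1) (D ^ 3 * c.2) F) + crk (EF (D ^ 2 * c.1) (D ^ 3 * c.2) F)) ≤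
      ∏ T : Finset (Fin r), ((SelR ((D * ∏ i ∈ T, d i) ^ 2 * c.1)
        ((D * ∏ i ∈ T, d i) ^ 3 * c.2)).ncard : ℝ) := by
  have hdT : ∀ T : Finset (Fin r), (D * ∏ i ∈ T, d i) ≠ 0 := fun T =>
    mul_ne_zero hD (prod_ne_zero_iff.2 fun i _ => hd i)
  have hc' : 4 * (D ^ 2 * c.1) ^ 3 + 27 * (D ^ 3 * c.2) ^ 2 ≠ 0 := by
    have e : 4 * (D ^ 2 * c.1) ^ 3 + 27 * (D ^ 3 * c.2) ^ 2 = D ^ 6 * dsc c := by
      unfold dsc
      ring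
    rw [e]
    exact mul_ne_zero (pow_ne_zero _ hD) hc
  have hA : ∀ T : Finset (Fin r), (∏ i ∈ T, d i) ^ 2 * (D ^ 2 * c.1) =
      (D * ∏ i ∈ T, d i) ^ 2 * c.1 := fun T => by ring
  have hB : ∀ T : Finset (Fin r), (∏ i ∈ T, d i) ^ 3 * (D ^ 3 * c.2) =
      (D * ∏ i ∈ T, d i) ^ 3 * c.2 := fun T => by ring
  have key : ∀ q : ℕ, HasDiv (EF (D ^ 2 * c.1) (D ^ 3 * c.2) F) q →
      (2 : ℝ) ^ (rk (EF (D ^ 2 * c.1) (D ^ 3 * c.2) F) + q) ≤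
      ∏ T : Finset (Fin r), ((SelR ((D * ∏ i ∈ T, d i) ^ 2 * c.1)
        ((D * ∏ i ∈ T, d i) ^ 3 * c.2)).ncard : ℝ) := by
    intro q hq
    refine Pool.Agent.TH841.NF.one_field hF hd hc' (fun T => ((SelR ((D * ∏ i ∈ T, d i) ^ 2 * c.1)
        ((D * ∏ i ∈ T, d i) ^ 3 * c.2)).ncard : ℝ)) (fun T => ?_) (fun T => ?_) hq
    · rw [hA, hB]
      have h0 : dsc ((D * ∏ i ∈ T, d i) ^ 2 * c.1, (D * ∏ i ∈ T, d i) ^ 3 * c.2) ≠ 0 := by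
        have e : dsc ((D * ∏ i ∈ T, d i) ^ 2 * c.1, (D * ∏ i ∈ T, d i) ^ 3 * c.2) =
            (D * ∏ i ∈ T, d i) ^ 6 * dsc c := by
          unfold dsc
          ring
        rw [e]
        exact mul_ne_zero (pow_ne_zero _ (hdT T)) hc
      obtain ⟨e1, e2, e3, he⟩ := roots_of h0 (Pool.Agent.Y667.QK.hasT_tw (hdT T) hc hT)
      exact Pool.Agent.TH841.SH.bd_selR h0 he (sel_rd (hdT T) hc hT).1
    · rw [hA, hB]
      exact fin_tw' (hdT T) hc hT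
  have h0 : HasDiv (EF (D ^ 2 * c.1) (D ^ 3 * c.2) F) 0 :=
    ⟨0, fun x y _ => Subsingleton.elim x y⟩
  have hbdd : BddAbove {q | HasDiv (EF (D ^ 2 * c.1) (D ^ 3 * c.2) F) q} := by
    obtain ⟨M, hM⟩ := pow_unbounded_of_one_lt (∏ T : Finset (Fin r),
      ((SelR ((D * ∏ i ∈ T, d i) ^ 2 * c.1) ((D * ∏ i ∈ T, d i) ^ 3 * c.2)).ncard : ℝ))
      (one_lt_two : (1 : ℝ) < 2)
    refine ⟨M, fun q hq => ?_⟩
    by_contra hcon
    push Not at hcon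
    have h1 := (key q hq).trans hM.le
    have h2 := (pow_le_pow_iff_right₀ (one_lt_two : (1 : ℝ) < 2)).1 h1
    omega
  have hmem : HasDiv (EF (D ^ 2 * c.1) (D ^ 3 * c.2) F)
      (crk (EF (D ^ 2 * c.1) (D ^ 3 * c.2) F)) := Nat.sSup_mem ⟨0, h0⟩ hbdd
  exact ⟨⟨hmem, fun q hq => le_csSup hbdd hq⟩, key _ hmem⟩

lemma mean_abs {r : ℕ} (D : ℤ) (d : Fin r → ℤ) :
    (∑ T : Finset (Fin r), (|((D * ∏ i ∈ T, d i : ℤ) : ℝ)|) ^ ((4 : ℝ) / 3)) / 2 ^ r =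
      |(D : ℝ)| ^ ((4 : ℝ) / 3) * ∏ i, ((1 + |(d i : ℝ)| ^ ((4 : ℝ) / 3)) / 2) := by
  rw [sum_abs, Finset.prod_div_distrib, prod_const, card_univ, Fintype.card_fin, mul_div_assoc]

open Pool.Agent.TH841.NF (Gen EF) in
open Pool.Agent.TH841.NF.D (HasDiv crk rk) in
/-- **The average of the coranks over the multiquadratic fields.** -/
theorem crk_avg {P : ℤ × ℤ → Prop} (hP : Dn.Good P)
    (hPT : ∀ c, P c ↔ dsc c ≠ 0 ∧ Red c ∧ HasT 2 (Sh c.1 c.2)) {θ : ℝ} (hθ0 : 0 < θ)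
    (hθ : θ < 2 / 3) : ∃ (C : ℝ) (Z0 : ℕ), 0 < C ∧
    ∀ (F : Type) [Field F] [NumberField F] (r : ℕ) (d : Fin r → ℤ), Gen F d → (∀ i, d i ≠ 0) →
    ∀ D : ℤ, D ≠ 0 → ∀ f : ℤ × ℤ → ℕ, Dn.Bdd f → ∀ Z : ℕ, Z0 ≤ Z →
    ∀ S : Finset (ℤ × ℤ), (S : Set (ℤ × ℤ)) = Gm P f Z →
    ∑ c ∈ S, (2 : ℝ) ^ (θ * (((rk (EF (D ^ 2 * c.1) (D ^ 3 * c.2) F) +
      crk (EF (D ^ 2 * c.1) (D ^ 3 * c.2) F) : ℕ) : ℝ) / 2 ^ r)) ≤
        C * (|(D : ℝ)| ^ ((4 : ℝ) / 3) * ∏ i, ((1 + |(d i : ℝ)| ^ ((4 : ℝ) / 3)) / 2)) *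
          S.card := by
  classical
  obtain ⟨C, Z0, hC, havg⟩ := tw_sel hP hPT hθ0 hθ
  refine ⟨C, Z0, hC, fun F _ _ r d hF hd D hD f hf Z hZ S hS => ?_⟩
  have hdT : ∀ T : Finset (Fin r), (D * ∏ i ∈ T, d i) ≠ 0 := fun T =>
    mul_ne_zero hD (prod_ne_zero_iff.2 fun i _ => hd i)
  have h1 : ∀ c ∈ S, (2 : ℝ) ^ (θ * (((rk (EF (D ^ 2 * c.1) (D ^ 3 * c.2) F) +
      crk (EF (D ^ 2 * c.1) (D ^ 3 * c.2) F) : ℕ) : ℝ) / 2 ^ r)) ≤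
      (∑ T : Finset (Fin r), ((SelR ((D * ∏ i ∈ T, d i) ^ 2 * c.1)
        ((D * ∏ i ∈ T, d i) ^ 3 * c.2)).ncard : ℝ) ^ θ) / 2 ^ r := by
    intro c hc
    have hc' : c ∈ Gm P f Z := by rw [← hS]; exact mem_coe.2 hc
    obtain ⟨k1, -, k3⟩ := (hPT c).1 hc'.1
    have h2 := two_pow_mean (ι := Finset (Fin r)) (fun T => ((SelR ((D * ∏ i ∈ T, d i) ^ 2 * c.1)
        ((D * ∏ i ∈ T, d i) ^ 3 * c.2)).ncard : ℝ)) (fun T => Nat.cast_nonneg _) (n := 2 ^ r)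
        (by rw [Fintype.card_finset, Fintype.card_fin]) (crk_mq hF hd k1 k3 hD).2 hθ0.le
    rw [Nat.cast_pow, Nat.cast_ofNat] at h2
    exact h2
  refine (sum_le_sum h1).trans ?_
  rw [← sum_div, sum_comm, ← mean_abs, div_le_iff₀ (by positivity)]
  refine (sum_le_sum fun T _ => havg (D * ∏ i ∈ T, d i) (hdT T) f hf Z hZ S hS).trans
    (le_of_eq ?_)
  rw [← sum_mul, ← mul_sum]
  field_simp

end Pool.Agent.X293.CO
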