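import Mathlib
import Pool.Agent.Y294.ET.Two
import Pool.Agent.W307.RS.MainD
import Pool.Agent.Y679.Cr.Dens
import Pool.Agent.Y679.Cr.Conv

/-!
# The curves with a larger torsion group in the ordering by the conductor
-/

set_option autoImplicit false

namespace Pool.Agent.X293.CO

open Finset Filter Topology Pool.Agent.W307.RT Pool.Agent.W307.RS Pool.Agent.H925R.Szpiro

lemma count_of {m k d : ℕ} {M N : ℤ → ℤ → ℤ} (hk : k = 2 * d) (hP : PARD m M N)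
    (hreg : ∃ C : ℝ, 0 ≤ C ∧ ∀ W : ℕ, 1 ≤ W → ∀ S : Finset (ℤ × ℤ),
      (∀ t ∈ S, M t.1 t.2 ≠ 0 ∧ N t.1 t.2 ≠ 0 ∧ M t.1 t.2 ≠ N t.1 t.2 ∧
        (M t.1 t.2 * N t.1 t.2 * (M t.1 t.2 - N t.1 t.2)).natAbs ≤ W ^ d) →
      ∑ t ∈ S, GG M N t ≤ C * (W : ℝ) ^ 2) :
    ∃ (C : ℝ) (C0 : ℕ), 0 ≤ C ∧ ∀ Z W : ℕ, 1 ≤ W → C0 * Z ≤ W ^ k → ∀ S : Finset (ℤ × ℤ),
      (S : Set (ℤ × ℤ)) ⊆ DvS m Z → (S.card : ℝ) ≤ C * (W : ℝ) ^ 2 := by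
  classical
  obtain ⟨C0, F, hF⟩ := hP
  obtain ⟨C, hC, hb⟩ := hreg
  refine ⟨C, C0, hC, fun Z W hW hZW S hS => ?_⟩
  obtain ⟨hinj, h2⟩ := hF Z
  have h3 : ∑ x ∈ S, (2 : ℝ) ^ Module.finrank ℤ (Sh x.1 x.2).toAffine.Point =
      ∑ t ∈ S.image F, GG M N t := by
    rw [sum_image (hinj.mono hS)]
    apply sum_congr rfl
    intro x hx'
    obtain ⟨a1, a2, a3, a4, _, a6⟩ := h2 x (hS hx')
    unfold GG
    rw [if_pos ⟨a1, a2, a3, a4⟩, a6]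
  have hone : (S.card : ℝ) ≤
      ∑ x ∈ S, (2 : ℝ) ^ Module.finrank ℤ (Sh x.1 x.2).toAffine.Point := by
    have h1 : ∑ x ∈ S, (1 : ℝ) = S.card := by simp
    rw [← h1]
    exact sum_le_sum fun x _ => one_le_pow₀ (by norm_num)
  refine hone.trans ?_
  rw [h3]
  apply hb W hW
  intro t ht
  obtain ⟨x, hx', rfl⟩ := mem_image.1 ht
  obtain ⟨a1, a2, a3, a4, a5, _⟩ := h2 x (hS hx')
  refine ⟨a2, a3, a4, ?_⟩
  have h4 : (M (F x).1 (F x).2 * N (F x).1 (F x).2 *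
      (M (F x).1 (F x).2 - N (F x).1 (F x).2)).natAbs ^ 2 ≤ (W ^ d) ^ 2 := by
    calc _ ≤ C0 * Z := a5
      _ ≤ W ^ k := hZW
      _ = (W ^ d) ^ 2 := by rw [hk, ← pow_mul, mul_comm]
  exact (Nat.pow_le_pow_iff_left (by norm_num)).1 h4

/-- a choice of `W` -/
lemma exW (C0 : ℕ) : ∃ A : ℝ, 0 < A ∧ ∀ Z : ℕ, 1 ≤ Z → ∃ W : ℕ, 1 ≤ W ∧
    C0 * (16 * Z ^ 3) ≤ W ^ 12 ∧ (W : ℝ) ^ 2 ≤ A * (Z : ℝ) ^ ((1 : ℝ) / 2) := by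
  set K : ℝ := (C0 : ℝ) * 16 with hK
  have hK0 : 0 ≤ K := by positivity
  refine ⟨(K ^ ((1 : ℝ) / 12) + 2) ^ 2, by positivity, fun Z hZ => ?_⟩
  have hZr : (1 : ℝ) ≤ Z := by exact_mod_cast hZ
  have hZ0 : (0 : ℝ) ≤ Z := by linarith
  set x : ℝ := (K * (Z : ℝ) ^ 3) ^ ((1 : ℝ) / 12) with hx
  have hx0 : 0 ≤ x := Real.rpow_nonneg (by positivity) _
  have hx12 : x ^ 12 = K * (Z : ℝ) ^ 3 := by
    rw [hx, ← Real.rpow_natCast, ← Real.rpow_mul (by positivity)]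
    norm_num
  have hxe : x = K ^ ((1 : ℝ) / 12) * (Z : ℝ) ^ ((1 : ℝ) / 4) := by
    rw [hx, Real.mul_rpow hK0 (by positivity)]
    congr 1
    rw [← Real.rpow_natCast, ← Real.rpow_mul hZ0]
    norm_num
  refine ⟨⌈x⌉₊ + 1, by omega, ?_, ?_⟩
  · have h1 : x ≤ ((⌈x⌉₊ + 1 : ℕ) : ℝ) := by
      push_cast
      linarith [Nat.le_ceil x]
    have h2 : ((C0 * (16 * Z ^ 3) : ℕ) : ℝ) ≤ (((⌈x⌉₊ + 1) ^ 12 : ℕ) : ℝ) := by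
      push_cast
      calc (C0 : ℝ) * (16 * (Z : ℝ) ^ 3) = x ^ 12 := by rw [hx12, hK]; ring
        _ ≤ ((⌈x⌉₊ + 1 : ℕ) : ℝ) ^ 12 := pow_le_pow_left₀ hx0 h1 12
        _ = _ := by push_cast; ring
    exact_mod_cast h2
  · have h1 : ((⌈x⌉₊ + 1 : ℕ) : ℝ) ≤ x + 2 := by
      push_cast
      linarith [(Nat.ceil_lt_add_one hx0).le]
    have h2 : (1 : ℝ) ≤ (Z : ℝ) ^ ((1 : ℝ) / 4) := Real.one_le_rpow hZr (by norm_num)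
    have h5 : x + 2 ≤ (K ^ ((1 : ℝ) / 12) + 2) * (Z : ℝ) ^ ((1 : ℝ) / 4) := by
      rw [hxe]
      nlinarith
    have h3 : ((⌈x⌉₊ + 1 : ℕ) : ℝ) ≤ (K ^ ((1 : ℝ) / 12) + 2) * (Z : ℝ) ^ ((1 : ℝ) / 4) :=
      h1.trans h5
    have h4 : ((Z : ℝ) ^ ((1 : ℝ) / 4)) ^ 2 = (Z : ℝ) ^ ((1 : ℝ) / 2) := by
      rw [← Real.rpow_natCast, ← Real.rpow_mul hZ0]
      norm_num
    calc ((⌈x⌉₊ + 1 : ℕ) : ℝ) ^ 2 ≤ ((K ^ ((1 : ℝ) / 12) + 2) * (Z : ℝ) ^ ((1 : ℝ) / 4)) ^ 2 :=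
          pow_le_pow_left₀ (Nat.cast_nonneg _) h3 2
      _ = _ := by rw [mul_pow, h4]

/-- few curves with `Z/2 x Z/4` or `Z/2 x Z/6` and discriminant at most `Z ^ 3` -/
lemma count46 : ∃ C : ℝ, 0 < C ∧ ∀ m : ℕ, m = 4 ∨ m = 6 → ∀ Z : ℕ, 1 ≤ Z →
    ∀ S : Finset (ℤ × ℤ), (S : Set (ℤ × ℤ)) ⊆ DvS m (16 * Z ^ 3) →
      (S.card : ℝ) ≤ C * (Z : ℝ) ^ ((1 : ℝ) / 2) := by
  obtain ⟨C4, D4, hC4, h4⟩ := count_of (k := 12) (d := 6) rfl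
    (Pool.Agent.W500.RS.pard4_of Pool.Agent.W261.RT.iso Pool.Agent.W554.RS.mdl)
    (reg4 cov (Pool.Agent.W397.RS.fams_of avg2s))
  obtain ⟨C6, D6, hC6, h6⟩ := count_of (k := 24) (d := 12) rfl
    (Pool.Agent.W806.RS.pard6_of Pool.Agent.W261.RT.iso Pool.Agent.W554.RS.mdl)
    (reg6 cov (Pool.Agent.W397.RS.fams_of avg2s))
  obtain ⟨A4, hA4, g4⟩ := exW D4
  obtain ⟨A6, hA6, g6⟩ := exW D6
  refine ⟨C4 * A4 + C6 * A6 + 1, by positivity, fun m hm Z hZ S hS => ?_⟩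
  have hr : 0 ≤ (Z : ℝ) ^ ((1 : ℝ) / 2) := Real.rpow_nonneg (Nat.cast_nonneg _) _
  rcases hm with rfl | rfl
  · obtain ⟨W, w1, w2, w3⟩ := g4 Z hZ
    have h := h4 _ W w1 w2 S hS
    calc (S.card : ℝ) ≤ C4 * (W : ℝ) ^ 2 := h
      _ ≤ C4 * (A4 * (Z : ℝ) ^ ((1 : ℝ) / 2)) := mul_le_mul_of_nonneg_left w3 hC4
      _ = C4 * A4 * (Z : ℝ) ^ ((1 : ℝ) / 2) := by ring
      _ ≤ _ := by
        apply mul_le_mul_of_nonneg_right _ hr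
        have := mul_nonneg hC6 hA6.le
        linarith
  · obtain ⟨W, w1, w2, w3⟩ := g6 Z hZ
    have w4 : D6 * (16 * Z ^ 3) ≤ W ^ 24 :=
      w2.trans (Nat.pow_le_pow_right w1 (by norm_num))
    have h := h6 _ W w1 w4 S hS
    calc (S.card : ℝ) ≤ C6 * (W : ℝ) ^ 2 := h
      _ ≤ C6 * (A6 * (Z : ℝ) ^ ((1 : ℝ) / 2)) := mul_le_mul_of_nonneg_left w3 hC6
      _ = C6 * A6 * (Z : ℝ) ^ ((1 : ℝ) / 2) := by ring
      _ ≤ _ := by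
        apply mul_le_mul_of_nonneg_right _ hr
        have := mul_nonneg hC4 hA4.le
        linarith

open Pool.Agent.Y679.Cr (Gm cs Good Bdd Tp Tp_le Gm_fin Gm_ge)
open Pool.Agent.Y294.ET (No34 ord_of)

variable {P : ℤ × ℤ → Prop}

/-- **There are few curves with a point of order 3 or 4.** -/
theorem few (hP : Good P) (hPT : ∀ c, P c → 4 * c.1 ^ 3 + 27 * c.2 ^ 2 ≠ 0 ∧
      (∀ p : ℕ, p.Prime → ¬ ((p : ℤ) ^ 4 ∣ c.1 ∧ (p : ℤ) ^ 6 ∣ c.2)) ∧ HasT 2 (Sh c.1 c.2)) :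
    ∃ (η C : ℝ), 0 < η ∧ 0 < C ∧ ∀ f : ℤ × ℤ → ℕ, Bdd f → ∀ Z : ℕ, 1 ≤ Z →
      (((Gm P f Z ∩ {c | ¬ No34 c}).ncard : ℕ) : ℝ) ≤ C * (Z : ℝ) ^ ((2 : ℝ) / 3 - η) := by
  classical
  obtain ⟨η, C1, hη, hC1, htop⟩ := Tp_le hP
  obtain ⟨C2, hC2, hcnt⟩ := count46
  refine ⟨min η (1 / 6), C1 + C2 + C2, by positivity, by positivity, fun f hf Z hZ => ?_⟩
  have hZr : (1 : ℝ) ≤ Z := by exact_mod_cast hZ
  have hfin := Gm_fin hP hf Z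
  obtain ⟨S, hS⟩ : ∃ S : Finset (ℤ × ℤ), (S : Set (ℤ × ℤ)) = Gm P f Z :=
    ⟨hfin.toFinset, hfin.coe_toFinset⟩
  have hmem : ∀ c ∈ S, c ∈ Gm P f Z := fun c hc => by rw [← hS]; exact mem_coe.2 hc
  have e1 : (Gm P f Z ∩ {c | ¬ No34 c}).ncard = (S.filter fun c => ¬ No34 c).card := by
    rw [← hS, ← Set.ncard_coe_finset]
    congr 1
    ext c
    simp
  have e2 : (Gm P f Z ∩ Tp).ncard = (S.filter fun c => c ∈ Tp).card := by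
    rw [← hS, ← Set.ncard_coe_finset]
    congr 1
    ext c
    simp
  have hD : ∀ m : ℕ, ((S.filter fun c => c ∉ Tp ∧ HasT m (Sh c.1 c.2) : Finset (ℤ × ℤ)) :
      Set (ℤ × ℤ)) ⊆ DvS m (16 * Z ^ 3) := by
    intro m c hc
    obtain ⟨h1, h2, h3⟩ := mem_filter.1 (mem_coe.1 hc)
    have hg := hmem c h1
    obtain ⟨k1, k2, -⟩ := hPT c hg.1
    refine ⟨k1, k2, h3, ?_⟩
    have h4 : |D (-c.1) (-c.2)| ≤ (cs c : ℤ) ^ 3 := not_lt.1 h2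
    rw [Pool.Agent.Y679.Cr.D_neg, abs_neg] at h4
    have h5 : cs c ≤ Z := Pool.Agent.Y679.Cr.cs_le (hf c).1 hg.2
    have h6 : (cs c : ℤ) ^ 3 ≤ (Z : ℤ) ^ 3 :=
      pow_le_pow_left₀ (by positivity) (by exact_mod_cast h5) 3
    refine (Pool.Agent.W554.RS.mdl c.1 c.2 k1 k2).2.trans ?_
    have h7 : (((16 * (4 * c.1 ^ 3 + 27 * c.2 ^ 2)).natAbs : ℕ) : ℤ) ≤
        ((16 * Z ^ 3 : ℕ) : ℤ) := by
      rw [Int.natCast_natAbs, abs_mul]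
      push_cast
      have h8 : |(16 : ℤ)| = 16 := by norm_num
      rw [h8]
      linarith
    exact_mod_cast h7
  have hsub : (S.filter fun c => ¬ No34 c) ⊆ (S.filter fun c => c ∈ Tp) ∪
      ((S.filter fun c => c ∉ Tp ∧ HasT 4 (Sh c.1 c.2)) ∪
        (S.filter fun c => c ∉ Tp ∧ HasT 6 (Sh c.1 c.2))) := by
    intro c hc
    obtain ⟨h1, h2⟩ := mem_filter.1 hc
    rw [mem_union, mem_union, mem_filter, mem_filter, mem_filter]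
    by_cases ht : c ∈ Tp
    · exact Or.inl ⟨h1, ht⟩
    by_cases c4 : HasT 4 (Sh c.1 c.2)
    · exact Or.inr (Or.inl ⟨h1, ht, c4⟩)
    by_cases c6 : HasT 6 (Sh c.1 c.2)
    · exact Or.inr (Or.inr ⟨h1, ht, c6⟩)
    · exfalso
      apply h2
      intro Q
      have := ord_of (hPT c (hmem c h1).1).2.2 c4 c6 Q
      exact ⟨this.2, this.1⟩
  have h1 : ((S.filter fun c => ¬ No34 c).card : ℝ) ≤ (S.filter fun c => c ∈ Tp).card +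
      ((S.filter fun c => c ∉ Tp ∧ HasT 4 (Sh c.1 c.2)).card +
        (S.filter fun c => c ∉ Tp ∧ HasT 6 (Sh c.1 c.2)).card) := by
    exact_mod_cast (card_le_card hsub).trans
      ((card_union_le _ _).trans (Nat.add_le_add_left (card_union_le _ _) _))
  have h2 := htop f hf Z hZ
  rw [e2] at h2
  have h3 := hcnt 4 (Or.inl rfl) Z hZ _ (hD 4)
  have h4 := hcnt 6 (Or.inr rfl) Z hZ _ (hD 6)
  have p1 : (Z : ℝ) ^ ((2 : ℝ) / 3 - η) ≤ (Z : ℝ) ^ ((2 : ℝ) / 3 - min η (1 / 6)) :=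
    Real.rpow_le_rpow_of_exponent_le hZr (by linarith [min_le_left η (1 / 6)])
  have p2 : (Z : ℝ) ^ ((1 : ℝ) / 2) ≤ (Z : ℝ) ^ ((2 : ℝ) / 3 - min η (1 / 6)) :=
    Real.rpow_le_rpow_of_exponent_le hZr (by linarith [min_le_right η (1 / 6)])
  rw [e1]
  calc _ ≤ _ := h1
    _ ≤ C1 * (Z : ℝ) ^ ((2 : ℝ) / 3 - min η (1 / 6)) +
        (C2 * (Z : ℝ) ^ ((2 : ℝ) / 3 - min η (1 / 6)) +
          C2 * (Z : ℝ) ^ ((2 : ℝ) / 3 - min η (1 / 6))) := by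
        refine add_le_add (h2.trans (mul_le_mul_of_nonneg_left p1 hC1.le)) (add_le_add
          (h3.trans (mul_le_mul_of_nonneg_left p2 hC2.le))
          (h4.trans (mul_le_mul_of_nonneg_left p2 hC2.le)))
    _ = _ := by ring

/-- almost all curves have no point of order 3 or 4, uniformly in the factor -/
theorem few_eps (hP : Good P) (hPT : ∀ c, P c → 4 * c.1 ^ 3 + 27 * c.2 ^ 2 ≠ 0 ∧
      (∀ p : ℕ, p.Prime → ¬ ((p : ℤ) ^ 4 ∣ c.1 ∧ (p : ℤ) ^ 6 ∣ c.2)) ∧ HasT 2 (Sh c.1 c.2))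
    {ε : ℝ} (hε : 0 < ε) : ∃ Z0 : ℕ, ∀ f : ℤ × ℤ → ℕ, Bdd f → ∀ Z : ℕ, Z0 ≤ Z →
      0 < (Gm P f Z).ncard ∧
      (((Gm P f Z ∩ {c | ¬ No34 c}).ncard : ℕ) : ℝ) ≤ ε * (Gm P f Z).ncard := by
  obtain ⟨η, C, hη, hC, h⟩ := few hP hPT
  obtain ⟨c, Z1, hc, hlo⟩ := Gm_ge hP
  have hlim : Tendsto (fun Z : ℕ => C * (Z : ℝ) ^ (-η)) atTop (𝓝 0) := by
    have := ((tendsto_rpow_neg_atTop hη).comp tendsto_natCast_atTop_atTop).const_mul C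
    rwa [mul_zero] at this
  obtain ⟨Z2, h2⟩ := eventually_atTop.1 (hlim.eventually (gt_mem_nhds
    (show (0 : ℝ) < ε * c by positivity)))
  refine ⟨max Z1 (max Z2 1), fun f hf Z hZ => ?_⟩
  have hZ1 : Z1 ≤ Z := (le_max_left _ _).trans hZ
  have hZ2 : Z2 ≤ Z := ((le_max_left _ _).trans (le_max_right _ _)).trans hZ
  have hZ3 : 1 ≤ Z := ((le_max_right _ _).trans (le_max_right _ _)).trans hZ
  have hZr : (0 : ℝ) < Z := by exact_mod_cast hZ3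
  have h3 := hlo f hf Z hZ1
  have h4 : (0 : ℝ) < (Z : ℝ) ^ ((2 : ℝ) / 3) := by positivity
  have h9 : (0 : ℝ) < ((Gm P f Z).ncard : ℝ) := lt_of_lt_of_le (by positivity) h3
  refine ⟨by exact_mod_cast h9, ?_⟩
  calc (((Gm P f Z ∩ {c | ¬ No34 c}).ncard : ℕ) : ℝ) ≤ C * (Z : ℝ) ^ ((2 : ℝ) / 3 - η) :=
        h f hf Z hZ3
    _ = C * (Z : ℝ) ^ (-η) * (Z : ℝ) ^ ((2 : ℝ) / 3) := by
        rw [sub_eq_add_neg, Real.rpow_add hZr]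
        ring
    _ ≤ ε * c * (Z : ℝ) ^ ((2 : ℝ) / 3) := mul_le_mul_of_nonneg_right (h2 Z hZ2).le h4.le
    _ = ε * (c * (Z : ℝ) ^ ((2 : ℝ) / 3)) := by ring
    _ ≤ _ := mul_le_mul_of_nonneg_left h3 hε.le

end Pool.Agent.X293.CO
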