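import Mathlib
import Pool.Agent.X293.CO.Ex
import Pool.Agent.Y667.RP.Disc
import Pool.Agent.Y667.SX.Main

/-!
# The curves with a larger torsion group in the ordering by the discriminant
-/

set_option autoImplicit false

namespace Pool.Agent.X293.CO

open Finset Filter Topology Pool.Agent.W307.RT Pool.Agent.W307.RS Pool.Agent.H925R.Szpiro
open Pool.Agent.TH344.DS (Dv)
open Pool.Agent.Y294.ET (No34 ord_of)

lemma Dv_coe (D : ℕ) : (Dv D : Set (ℤ × ℤ)) = DvS 2 D := by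
  unfold Dv
  rw [dif_pos (Pool.Agent.TH344.DS.excd.1 D), Set.Finite.coe_toFinset]

/-- a lower bound for the number of the curves -/
lemma lowD : ∃ c : ℝ, 0 < c ∧ ∃ n0 : ℕ, ∀ n : ℕ, n0 ≤ n → ∀ D : ℕ, n ^ 3 ≤ D →
    c * n ≤ ((Dv D).card : ℝ) := by
  obtain ⟨c, C2, T0, hc, hlow⟩ := Pool.Agent.W672.FK.lowf
  obtain ⟨K, hK⟩ : ∃ K : ℕ, K = 32 * (C2 + 1) := ⟨_, rfl⟩
  have hK0 : 0 < K := by omega
  have hKr : (0 : ℝ) < K := by exact_mod_cast hK0
  refine ⟨c / (4 * K), by positivity, K * (T0 + 1 + 1) ^ 2, fun n hn D hD => ?_⟩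
  obtain ⟨T, hT⟩ : ∃ T : ℕ, T = Nat.sqrt (n / K) := ⟨_, rfl⟩
  have h1 : T * T ≤ n / K := by rw [hT]; exact Nat.sqrt_le _
  have h2 : n / K < (T + 1) * (T + 1) := by rw [hT]; exact Nat.lt_succ_sqrt _
  have h3 : (T0 + 1 + 1) ^ 2 ≤ n / K := by
    rw [Nat.le_div_iff_mul_le hK0]
    calc (T0 + 1 + 1) ^ 2 * K = K * (T0 + 1 + 1) ^ 2 := by ring
      _ ≤ n := hn
  have h4 : T0 + 1 ≤ T := by
    by_contra hcon
    have h5 : T + 1 ≤ T0 + 1 + 1 := by omega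
    have h6 : (T + 1) * (T + 1) ≤ (T0 + 1 + 1) * (T0 + 1 + 1) := Nat.mul_le_mul h5 h5
    nlinarith
  have h5 : T * T * K ≤ n := (Nat.mul_le_mul_right K h1).trans (Nat.div_mul_le_self n K)
  have h6 : C2 * T ^ 6 ≤ D / 32 := by
    rw [Nat.le_div_iff_mul_le (by norm_num)]
    calc C2 * T ^ 6 * 32 ≤ K * T ^ 6 := by rw [hK]; nlinarith [Nat.zero_le (T ^ 6)]
      _ ≤ K ^ 3 * T ^ 6 := Nat.mul_le_mul_right _ (Nat.le_self_pow (by norm_num) K)
      _ = (T * T * K) ^ 3 := by ring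
      _ ≤ n ^ 3 := Nat.pow_le_pow_left h5 3
      _ ≤ D := hD
  have h7 := hlow T (D / 32) (by omega) h6
  have h8 : ((Cv 2 (D / 32)).card : ℝ) ≤ (Dv D).card := by
    have h9 : (Cv 2 (D / 32)).card ≤ (Dv D).card := by
      rw [← Set.ncard_coe_finset, ← Set.ncard_coe_finset (Dv D)]
      refine Set.ncard_le_ncard ?_ (finite_toSet _)
      rw [Dv_coe]
      exact Cv_sub Pool.Agent.W554.RS.mdl 2 (D / 32) D (Nat.mul_div_le D 32)
    exact_mod_cast h9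
  have h9 : n ≤ 4 * K * (T * T) := by
    have h10 : n < K * (n / K + 1) := Nat.lt_mul_div_succ n hK0
    have h11 : n / K + 1 ≤ (T + 1) * (T + 1) := h2
    have h12 : (T + 1) * (T + 1) ≤ 4 * (T * T) := by nlinarith
    calc n ≤ K * (n / K + 1) := h10.le
      _ ≤ K * (4 * (T * T)) := Nat.mul_le_mul_left K (h11.trans h12)
      _ = _ := by ring
  have h10 : (n : ℝ) ≤ 4 * K * (T * T) := by exact_mod_cast h9
  have h11 : c / (4 * K) * n ≤ c * (T : ℝ) ^ 2 := by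
    rw [div_mul_eq_mul_div, div_le_iff₀ (by positivity)]
    calc c * n ≤ c * (4 * K * (T * T)) := mul_le_mul_of_nonneg_left h10 hc.le
      _ = _ := by ring
  exact h11.trans (h7.trans h8)

/-- almost all curves have no point of order 3 or 4 -/
lemma fewD {ε : ℝ} (hε : 0 < ε) : ∃ D0 : ℕ, ∀ D : ℕ, D0 ≤ D →
    0 < (Dv D).card ∧ ∀ S : Finset (ℤ × ℤ), S ⊆ Dv D → (∀ c ∈ S, ¬ No34 c) →
      (S.card : ℝ) ≤ ε * (Dv D).card := by
  classical
  obtain ⟨c, hc, n0, hlow⟩ := lowD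
  obtain ⟨C, hC, hcnt⟩ := count46
  obtain ⟨n1, hn1⟩ := exists_nat_gt (8 * C ^ 2 / (ε * c) ^ 2)
  refine ⟨(n0 + n1 + 1 + 1) ^ 3, fun D hD => ?_⟩
  obtain ⟨n, hn, hn'⟩ : ∃ n : ℕ, n ^ 3 ≤ D ∧ D < (n + 1) ^ 3 := by
    refine ⟨Nat.findGreatest (fun n => n ^ 3 ≤ D) D,
      Nat.findGreatest_spec (P := fun n => n ^ 3 ≤ D) (Nat.zero_le _) (by simp), ?_⟩
    by_contra hcon
    push Not at hcon
    have h1 := (Nat.le_self_pow (show 3 ≠ 0 by norm_num)
      (Nat.findGreatest (fun n => n ^ 3 ≤ D) D + 1)).trans hcon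
    have h2 := Nat.le_findGreatest (P := fun n => n ^ 3 ≤ D) h1 hcon
    omega
  have hnn : n0 + n1 + 1 ≤ n := by
    by_contra hcon
    have h1 : (n + 1) ^ 3 ≤ (n0 + n1 + 1 + 1) ^ 3 := Nat.pow_le_pow_left (by omega) 3
    omega
  have h1 := hlow n (by omega) D hn
  have hn1' : (1 : ℝ) ≤ n := by exact_mod_cast (show 1 ≤ n by omega)
  have hpos : (0 : ℝ) < (Dv D).card := lt_of_lt_of_le (by positivity) h1
  refine ⟨by exact_mod_cast hpos, fun S hS hno => ?_⟩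
  have hD16 : D ≤ 16 * (n + 1) ^ 3 := by omega
  have hmem : ∀ k ∈ S, k ∈ DvS 2 D := fun k hk => by rw [← Dv_coe]; exact mem_coe.2 (hS hk)
  have hsub : ∀ m : ℕ, ((S.filter fun k => HasT m (Sh k.1 k.2) : Finset (ℤ × ℤ)) :
      Set (ℤ × ℤ)) ⊆ DvS m (16 * (n + 1) ^ 3) := by
    intro m k hk
    obtain ⟨h2, h3⟩ := mem_filter.1 (mem_coe.1 hk)
    obtain ⟨k1, k2, -, k4⟩ := hmem k h2
    exact ⟨k1, k2, h3, k4.trans hD16⟩
  have hcov : S ⊆ (S.filter fun k => HasT 4 (Sh k.1 k.2)) ∪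
      (S.filter fun k => HasT 6 (Sh k.1 k.2)) := by
    intro k hk
    rw [mem_union, mem_filter, mem_filter]
    by_cases c4 : HasT 4 (Sh k.1 k.2)
    · exact Or.inl ⟨hk, c4⟩
    by_cases c6 : HasT 6 (Sh k.1 k.2)
    · exact Or.inr ⟨hk, c6⟩
    · exfalso
      apply hno k hk
      intro Q
      have := ord_of (hmem k hk).2.2.1 c4 c6 Q
      exact ⟨this.2, this.1⟩
  have h2 : (S.card : ℝ) ≤ (S.filter fun k => HasT 4 (Sh k.1 k.2)).card +
      (S.filter fun k => HasT 6 (Sh k.1 k.2)).card := by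
    exact_mod_cast (card_le_card hcov).trans (card_union_le _ _)
  have h3 := hcnt 4 (Or.inl rfl) (n + 1) (by omega) _ (hsub 4)
  have h4 := hcnt 6 (Or.inr rfl) (n + 1) (by omega) _ (hsub 6)
  have h5 : 2 * C * ((n + 1 : ℕ) : ℝ) ^ ((1 : ℝ) / 2) ≤ ε * c * n := by
    refine le_of_sq_le_sq ?_ (by positivity)
    rw [mul_pow, ← Real.rpow_natCast (((n + 1 : ℕ) : ℝ) ^ ((1 : ℝ) / 2)), ← Real.rpow_mul
      (Nat.cast_nonneg _)]
    norm_num
    have h6 : 8 * C ^ 2 < n1 * (ε * c) ^ 2 := by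
      rw [div_lt_iff₀ (by positivity)] at hn1
      exact hn1
    have h7 : (n1 : ℝ) ≤ n := by exact_mod_cast (show n1 ≤ n by omega)
    have h8 : (0 : ℝ) < (ε * c) ^ 2 := by positivity
    have h9 : 8 * C ^ 2 ≤ n * (ε * c) ^ 2 :=
      h6.le.trans (mul_le_mul_of_nonneg_right h7 h8.le)
    calc (2 * C) ^ 2 * ((n : ℝ) + 1) ≤ (2 * C) ^ 2 * (2 * n) :=
          mul_le_mul_of_nonneg_left (by linarith) (by positivity)
      _ = 8 * C ^ 2 * n := by ring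
      _ ≤ n * (ε * c) ^ 2 * n := mul_le_mul_of_nonneg_right h9 (by positivity)
      _ = (ε * c * n) ^ 2 := by ring
  calc (S.card : ℝ) ≤ 2 * C * ((n + 1 : ℕ) : ℝ) ^ ((1 : ℝ) / 2) := by linarith
    _ ≤ ε * c * n := h5
    _ = ε * (c * n) := by ring
    _ ≤ ε * (Dv D).card := mul_le_mul_of_nonneg_left h1 hε.le

open Classical in
/-- by height: a positive proportion of the curves has prescribed `rank + dim Sha[2]` and no point of
order 3 or 4 -/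
lemma posH (r : ℕ) : ∃ c : ℝ, 0 < c ∧ ∃ H0 : ℕ, ∀ H : ℕ, H0 ≤ H →
    c * ((Cv 2 H).card : ℝ) ≤
      (((Cv 2 H).filter (fun k => Pool.Agent.Y667.PA.TPR r k ∧ No34 k)).card : ℝ) := by
  classical
  obtain ⟨c, hc, H0, h⟩ := Pool.Agent.Y667.PA.curvesPR r
  obtain ⟨H1, h1⟩ := Pool.Agent.Y294.ET.few34 (c / 2) (by positivity)
  refine ⟨c / 2, by positivity, max H0 H1, fun H hH => ?_⟩
  have a0 := h H (by omega)
  have a1 := h1 H (by omega)
  have a2 : ((Cv 2 H).filter (Pool.Agent.Y667.PA.TPR r)).card +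
      (Pool.Agent.Y294.ET.G34 H).card ≤ (Cv 2 H).card +
      ((Cv 2 H).filter (fun k => Pool.Agent.Y667.PA.TPR r k ∧ No34 k)).card := by
    unfold Pool.Agent.Y294.ET.G34
    rw [← card_union_add_card_inter, ← filter_or, ← filter_and]
    exact Nat.add_le_add (card_le_card (filter_subset _ _)) le_rfl
  have a3 : (((Cv 2 H).filter (Pool.Agent.Y667.PA.TPR r)).card : ℝ) +
      (Pool.Agent.Y294.ET.G34 H).card ≤ (Cv 2 H).card +
      ((Cv 2 H).filter (fun k => Pool.Agent.Y667.PA.TPR r k ∧ No34 k)).card := by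
    exact_mod_cast a2
  linarith

end Pool.Agent.X293.CO
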